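import Pool.Agent.Work.MP_2738db_nt_Y.Interface3

/-!
Theorem Y (Fermat-Catalan, MP_2738db_nt), block GAP22R (helper31): the `r`-part of `B ^ 2`.
-/

set_option autoImplicit false

namespace Pool.Agent.Work.MP_2738db_nt_Y.helper31

open Pool.Agent.Work.MP_2738db_nt_Y

/-- the body of `Stmt_Arr` -/
def ArrC (C : ℝ) : Prop :=
  ∀ (r X₁ X₂ Y k₀ l j V : ℕ) (A B : ℝ), r.Prime → ¬ r ∣ X₁ → ¬ r ∣ X₂ →
    ¬ r ∣ Y → 2 ≤ Y → 1 ≤ k₀ → 1 ≤ l → 1 ≤ j → Nat.Coprime l k₀ → 1 ≤ A → 1 ≤ B →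
    Real.log X₁ ≤ A → Real.log X₂ ≤ A → Real.log Y ≤ B → (k₀ : ℝ) ≤ A * l →
    C * r * B * (1 + Real.log l) ≤ l →
    (r : ℤ) ^ V ∣ ((X₁ : ℤ) ^ l) ^ (2 * j) - ((X₂ : ℤ) ^ l * (Y : ℤ) ^ k₀) ^ (2 * j) →
    V * Real.log r ≤ C * r ^ 3 * (A * B) * (1 + Real.log l) ^ 2 + Real.log j

theorem logk_facts {k : ℕ} (hk : 2 ≤ k) :
    0 < Real.log k ∧ 1 ≤ 4 * Real.log k ^ 3 ∧ Real.log k ≤ 4 * Real.log k ^ 3 ∧
      (1 + Real.log k) ^ 2 ≤ 10 * Real.log k ^ 3 ∧ 1 + Real.log k ≤ 6 * Real.log k ^ 3 := by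
  have h2 : (0.69 : ℝ) ≤ Real.log k := by
    have h1 : Real.log 2 ≤ Real.log k := Real.log_le_log (by norm_num) (by exact_mod_cast hk)
    have := Real.log_two_gt_d9
    linarith
  set L := Real.log k with hL
  have h0 : 0 < L := by linarith
  have hsq : 0.476 ≤ L ^ 2 := by nlinarith
  have h3 : 0.69 * L ^ 2 ≤ L ^ 3 := by
    have : L ^ 3 = L * L ^ 2 := by ring
    rw [this]
    exact mul_le_mul_of_nonneg_right h2 (by positivity)
  have h4 : 0.476 * L ≤ L ^ 3 := by
    have : L ^ 3 = L ^ 2 * L := by ring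
    rw [this]
    exact mul_le_mul_of_nonneg_right hsq h0.le
  refine ⟨h0, by linarith, by linarith, ?_, by linarith⟩
  nlinarith

/-- `r`-part of the product of two coprime numbers, difference of squares a `k`-th power -/
theorem gap_diff (hSqf : Stmt_Sqf) (hLtr : Stmt_Ltr) {C₀ : ℝ} (hC₀ : 1 ≤ C₀) (hArr : ArrC C₀)
    (k X Z c r ν : ℕ) (hk : 2 ≤ k) (hZ : 1 ≤ Z) (hZX : Z < X) (hco : Nat.Coprime X Z)
    (hr : r.Prime) (hrXZ : r ∣ X * Z) (hrν : r ^ ν ∣ X * Z) (hrX : r ^ ν ≤ X)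
    (heq : Z ^ 2 + c ^ k = X ^ 2) :
    2 * ν * Real.log r ≤ 100 * C₀ * r ^ 3 * (Real.log k ^ 3 * (2 * Real.log X / k)) := by
  obtain ⟨hL0, hD1, hDL, hDL2, hDL1⟩ := logk_facts hk
  set L := Real.log k with hL
  have hkr : (2 : ℝ) ≤ k := by exact_mod_cast hk
  have hk0 : (0 : ℝ) < k := by linarith
  have hr2 : 2 ≤ r := hr.two_le
  have hrr : (2 : ℝ) ≤ r := by exact_mod_cast hr2
  have hX0 : (0 : ℝ) < X := by
    have : 0 < X := by omega
    exact_mod_cast this
  have hl2 := Real.log_two_gt_d9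
  have hl2' := Real.log_two_lt_d9
  -- `r` divides neither the sum nor the difference
  have hsum : ¬ r ∣ X + Z := by
    intro h
    rcases (hr.dvd_mul).1 hrXZ with h1 | h1
    · have h2 : r ∣ Z := (Nat.dvd_add_right h1).1 h
      exact hr.one_lt.ne' (Nat.dvd_one.1 (hco ▸ Nat.dvd_gcd h1 h2))
    · have h2 : r ∣ X := (Nat.dvd_add_left h1).1 h
      exact hr.one_lt.ne' (Nat.dvd_one.1 (hco ▸ Nat.dvd_gcd h2 h1))
  have hdif : ∀ W : ℕ, X = Z + W → ¬ r ∣ W := by
    intro W hW h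
    rcases (hr.dvd_mul).1 hrXZ with h1 | h1
    · have h2 : r ∣ Z := (Nat.dvd_add_left h).1 (hW ▸ h1)
      exact hr.one_lt.ne' (Nat.dvd_one.1 (hco ▸ Nat.dvd_gcd h1 h2))
    · have h2 : r ∣ X := hW ▸ (Dvd.dvd.add h1 h)
      exact hr.one_lt.ne' (Nat.dvd_one.1 (hco ▸ Nat.dvd_gcd h2 h1))
  -- trivial bound
  have htriv : ν * Real.log r ≤ Real.log X := by
    rw [← Real.log_pow]
    exact Real.log_le_log (by positivity) (by exact_mod_cast hrX)
  set t : ℝ := 2 * Real.log X / k with ht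
  have hkt : k * t = 2 * Real.log X := by
    rw [ht]
    field_simp
  have hr3 : (0 : ℝ) < (r : ℝ) ^ 3 := by positivity
  have hr3r : 4 * (r : ℝ) ≤ r ^ 3 := by
    have h4 : (4 : ℝ) ≤ r ^ 2 := by nlinarith
    have h5 : (r : ℝ) ^ 3 = r ^ 2 * r := by ring
    rw [h5]
    exact mul_le_mul_of_nonneg_right h4 (by linarith)
  have hXZ2 : ((X + Z : ℕ) : ℝ) ≤ 2 * X := by
    have : X + Z ≤ 2 * X := by omega
    exact_mod_cast this
  rcases hSqf X Z c k hco hZ hZX hk heq with ⟨U, v, hU1, hUv, hXU, hXv⟩ | ⟨U, v, hU1, hv1, h⟩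
  · -- first case
    have hrU : ¬ r ∣ U := fun h => hdif _ hXU (dvd_pow h (by omega))
    have hrv : ¬ r ∣ v := fun h => hsum (hXv ▸ dvd_pow h (by omega))
    have hXUz : (X : ℤ) = Z + (U : ℤ) ^ k := by exact_mod_cast hXU
    have hXvz : (X : ℤ) + Z = (v : ℤ) ^ k := by exact_mod_cast hXv
    have hdiv : (r : ℤ) ^ ν ∣ (v : ℤ) ^ (2 * k) - (U : ℤ) ^ (2 * k) := by
      have h1 : (v : ℤ) ^ (2 * k) - (U : ℤ) ^ (2 * k) = ((X * Z : ℕ) : ℤ) * 4 := by
        have h2 : (U : ℤ) ^ k = X - Z := by linarith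
        rw [mul_comm 2 k, pow_mul, pow_mul, ← hXvz, h2]
        push_cast
        ring
      rw [h1]
      exact Dvd.dvd.mul_right (by exact_mod_cast hrν) _
    obtain ⟨V', hV', hle⟩ := hLtr r v U k ν hr hrv hrU (by omega) hdiv
    have hlt : (U : ℤ) ^ (2 * (r - 1)) < (v : ℤ) ^ (2 * (r - 1)) :=
      pow_lt_pow_left₀ (by exact_mod_cast hUv) (by positivity) (by omega)
    have h3 : (r : ℤ) ^ V' ≤ (v : ℤ) ^ (2 * (r - 1)) := by
      have := Int.le_of_dvd (by linarith) hV'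
      have h0 : (0 : ℤ) ≤ (U : ℤ) ^ (2 * (r - 1)) := by positivity
      linarith
    have h4 : (r : ℤ) ^ ν ≤ k * (v : ℤ) ^ (2 * (r - 1)) := by
      have h5 : (r : ℤ) ^ ν ≤ k * (r : ℤ) ^ V' := by exact_mod_cast hle
      exact h5.trans (mul_le_mul_of_nonneg_left h3 (by positivity))
    have h4r : (r : ℝ) ^ ν ≤ k * (v : ℝ) ^ (2 * (r - 1)) := by exact_mod_cast h4
    have hv0 : (2 : ℝ) ≤ v := by
      have : 2 ≤ v := by omega
      exact_mod_cast this
    have h6 : ν * Real.log r ≤ L + (2 * (r - 1) : ℕ) * Real.log v := by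
      rw [← Real.log_pow, ← Real.log_pow, hL, ← Real.log_mul (by positivity) (by positivity)]
      exact Real.log_le_log (by positivity) h4r
    have hlv0 : 0 ≤ Real.log v := Real.log_nonneg (by linarith)
    have h7 : ((2 * (r - 1) : ℕ) : ℝ) ≤ 2 * r := by
      have : 2 * (r - 1) ≤ 2 * r := by omega
      exact_mod_cast this
    have h8 : ν * Real.log r ≤ L + 2 * r * Real.log v :=
      h6.trans (by linarith [mul_le_mul_of_nonneg_right h7 hlv0])
    have h9 : k * Real.log v ≤ Real.log 2 + Real.log X := by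
      rw [← Real.log_pow, ← Real.log_mul (by norm_num) (by positivity)]
      refine Real.log_le_log (by positivity) ?_
      have : ((v ^ k : ℕ) : ℝ) ≤ 2 * X := by rw [← hXv]; exact hXZ2
      exact_mod_cast this
    have h10 : k * Real.log 2 ≤ k * Real.log v :=
      mul_le_mul_of_nonneg_left (Real.log_le_log (by norm_num) hv0) hk0.le
    have h11 : Real.log 2 ≤ Real.log X := by nlinarith
    have h12 : k * Real.log v ≤ k * t := by linarith
    have h13 : Real.log v ≤ t := le_of_mul_le_mul_left h12 hk0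
    have h14 : Real.log 2 ≤ t := (Real.log_le_log (by norm_num) hv0).trans h13
    have ht0 : 0 < t := by linarith
    have hDt : 0 < L ^ 3 * t := by positivity
    have h15 : t ≤ 4 * (L ^ 3 * t) := by nlinarith
    have h16 : L ≤ 6 * (L ^ 3 * t) := by
      have : (1 : ℝ) ≤ 1.5 * t := by linarith
      nlinarith [mul_le_mul_of_nonneg_left this (by positivity : 0 ≤ 4 * L ^ 3)]
    have h17 : 2 * ν * Real.log r ≤ 12 * (L ^ 3 * t) + 16 * r * (L ^ 3 * t) := by
      have h18 : 4 * r * Real.log v ≤ 4 * r * (4 * (L ^ 3 * t)) :=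
        mul_le_mul_of_nonneg_left (h13.trans h15) (by positivity)
      linarith
    have h19 : 12 * (L ^ 3 * t) + 16 * r * (L ^ 3 * t) ≤ 100 * r ^ 3 * (L ^ 3 * t) := by
      have : 12 + 16 * (r : ℝ) ≤ 100 * r ^ 3 := by nlinarith
      linarith [mul_le_mul_of_nonneg_right this hDt.le]
    have h20 : 100 * r ^ 3 * (L ^ 3 * t) ≤ 100 * C₀ * r ^ 3 * (L ^ 3 * t) := by
      refine mul_le_mul_of_nonneg_right ?_ hDt.le
      refine mul_le_mul_of_nonneg_right ?_ hr3.le
      linarith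
    linarith
  · -- second case
    have hkk : 2 ^ (k - 1) = 2 * 2 ^ (k - 2) := by
      rw [← pow_succ']
      congr 1
      omega
    have h2v : ¬ r ∣ 2 ∧ ¬ r ∣ U ∧ ¬ r ∣ v := by
      rcases h with ⟨h1, h2⟩ | ⟨h1, h2⟩
      · refine ⟨fun h => hdif _ h1 (Dvd.dvd.mul_right h _), fun h => hdif _ h1
          (Dvd.dvd.mul_left (dvd_pow h (by omega)) _), fun h => hsum (h2 ▸ 
          (Dvd.dvd.mul_left (dvd_pow h (by omega)) _))⟩
      · refine ⟨fun h => hsum (h2 ▸ (Dvd.dvd.mul_right h _)), fun h => hsum (h2 ▸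
          (Dvd.dvd.mul_left (dvd_pow h (by omega)) _)), fun h => hdif _ h1 
          (Dvd.dvd.mul_left (dvd_pow h (by omega)) _)⟩
    obtain ⟨hr2', hrU, hrv⟩ := h2v
    -- sizes
    have hsz : 2 * U ^ k ≤ 2 * X ∧ 2 * 2 ^ (k - 2) * v ^ k ≤ 2 * X := by
      rw [hkk] at h
      rcases h with ⟨h1, h2⟩ | ⟨h1, h2⟩
      · constructor <;> omega
      · constructor <;> omega
    have hUX : U ^ k ≤ X := by omega
    have hpos2 : 1 ≤ 2 ^ (k - 2) := Nat.one_le_two_pow
    have hvX : 2 ^ (k - 2) * v ^ k ≤ X := by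
      have : 2 * (2 ^ (k - 2) * v ^ k) ≤ 2 * X := by
        rw [← mul_assoc]; exact hsz.2
      omega
    have hvX' : v ^ k ≤ X := (Nat.le_mul_of_pos_left _ hpos2).trans hvX
    have h2X : 2 ^ (k - 2) ≤ X := (Nat.le_mul_of_pos_right _ (pow_pos (by omega) k)).trans hvX
    have hlU : k * Real.log U ≤ Real.log X := by
      rw [← Real.log_pow]
      exact Real.log_le_log (by positivity) (by exact_mod_cast hUX)
    have hlv : k * Real.log v ≤ Real.log X := by
      rw [← Real.log_pow]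
      exact Real.log_le_log (by positivity) (by exact_mod_cast hvX')
    have hlX0 : 0 < Real.log X := Real.log_pos (by
      have : 1 < X := by omega
      exact_mod_cast this)
    have ht0 : 0 < t := by rw [ht]; positivity
    have hDt : 0 < L ^ 3 * t := by positivity
    have htD : t ≤ 4 * (L ^ 3 * t) := by nlinarith
    rcases (show k = 2 ∨ 3 ≤ k by omega) with hk2 | hk3
    · -- `k = 2`
      have h1 : k * t ≤ 8 * (L ^ 3 * t) := by
        have : (k : ℝ) = 2 := by exact_mod_cast hk2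
        rw [this]
        linarith
      have h2 : 8 * (L ^ 3 * t) ≤ 100 * C₀ * r ^ 3 * (L ^ 3 * t) := by
        refine mul_le_mul_of_nonneg_right ?_ hDt.le
        nlinarith
      linarith
    -- `k ≥ 3`
    have hdiv : (r : ℤ) ^ ν ∣ ((U : ℤ) ^ k) ^ 2 - ((v : ℤ) ^ k * 2 ^ (k - 2)) ^ 2 := by
      rw [hkk] at h
      have hn : (r : ℤ) ^ ν ∣ ((X * Z : ℕ) : ℤ) := by exact_mod_cast hrν
      rcases h with ⟨h1, h2⟩ | ⟨h1, h2⟩
      · have h1z : (X : ℤ) = Z + 2 * (U : ℤ) ^ k := by exact_mod_cast h1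
        have h2z : (X : ℤ) + Z = 2 * 2 ^ (k - 2) * (v : ℤ) ^ k := by exact_mod_cast h2
        have h3 : ((U : ℤ) ^ k) ^ 2 - ((v : ℤ) ^ k * 2 ^ (k - 2)) ^ 2 = -((X * Z : ℕ) : ℤ) := by
          have h4 : (U : ℤ) ^ k * 2 = X - Z := by linarith
          have h5 : ((v : ℤ) ^ k * 2 ^ (k - 2)) * 2 = X + Z := by rw [h2z]; ring
          have h6 : 4 * (((U : ℤ) ^ k) ^ 2 - ((v : ℤ) ^ k * 2 ^ (k - 2)) ^ 2) =
              4 * (-((X * Z : ℕ) : ℤ)) := by
            calc 4 * (((U : ℤ) ^ k) ^ 2 - ((v : ℤ) ^ k * 2 ^ (k - 2)) ^ 2)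
                = ((U : ℤ) ^ k * 2) ^ 2 - (((v : ℤ) ^ k * 2 ^ (k - 2)) * 2) ^ 2 := by ring
              _ = 4 * (-((X * Z : ℕ) : ℤ)) := by rw [h4, h5]; push_cast; ring
          linarith
        rw [h3]
        exact (dvd_neg).2 hn
      · have h1z : (X : ℤ) = Z + 2 * 2 ^ (k - 2) * (v : ℤ) ^ k := by exact_mod_cast h1
        have h2z : (X : ℤ) + Z = 2 * (U : ℤ) ^ k := by exact_mod_cast h2
        have h3 : ((U : ℤ) ^ k) ^ 2 - ((v : ℤ) ^ k * 2 ^ (k - 2)) ^ 2 = ((X * Z : ℕ) : ℤ) := by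
          have h4 : (U : ℤ) ^ k * 2 = X + Z := by linarith
          have h5 : ((v : ℤ) ^ k * 2 ^ (k - 2)) * 2 = X - Z := by rw [h1z]; ring
          have h6 : 4 * (((U : ℤ) ^ k) ^ 2 - ((v : ℤ) ^ k * 2 ^ (k - 2)) ^ 2) =
              4 * (((X * Z : ℕ) : ℤ)) := by
            calc 4 * (((U : ℤ) ^ k) ^ 2 - ((v : ℤ) ^ k * 2 ^ (k - 2)) ^ 2)
                = ((U : ℤ) ^ k * 2) ^ 2 - (((v : ℤ) ^ k * 2 ^ (k - 2)) * 2) ^ 2 := by ring
              _ = 4 * (((X * Z : ℕ) : ℤ)) := by rw [h4, h5]; push_cast; ring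
          linarith
        rw [h3]
        exact hn
    obtain ⟨l, k₀, j, hj1, hj2, hkl, hkk₀, hk₀1, hlk₀⟩ : ∃ l k₀ j : ℕ, 1 ≤ j ∧ j ≤ 2 ∧
        k = l * j ∧ k - 2 = k₀ * j ∧ 1 ≤ k₀ ∧ Nat.Coprime l k₀ := by
      rcases Nat.even_or_odd' k with ⟨n, hn | hn⟩
      · refine ⟨n, n - 1, 2, by norm_num, le_rfl, by omega, by omega, by omega, ?_⟩
        have h1 : n = (n - 1) + 1 := by omega
        rw [h1]
        simp
      · refine ⟨k, k - 2, 1, le_rfl, by norm_num, by omega, by omega, by omega, ?_⟩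
        have h1 : k = (k - 2) + 2 := by omega
        have h2 : Nat.Coprime ((k - 2) + 2) (k - 2) := by
          rw [Nat.coprime_self_add_left, Nat.coprime_comm]
          exact (Nat.coprime_two_right).2 ⟨n - 1, by omega⟩
        exact (congrArg (fun a => Nat.Coprime a (k - 2)) h1).mpr h2
    have hl1 : 1 ≤ l := by
      rcases Nat.eq_zero_or_pos l with h0 | h0
      · subst h0; omega
      · exact h0
    have hlk : l ≤ k := by rw [hkl]; exact Nat.le_mul_of_pos_right _ (by omega)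
    have hk2l : k ≤ 2 * l := by rw [hkl, mul_comm]; exact Nat.mul_le_mul_right _ hj2
    have hk₀l : k₀ ≤ l := by
      have : k₀ * j ≤ l * j := by rw [← hkl, ← hkk₀]; omega
      exact Nat.le_of_mul_le_mul_right this (by omega)
    have hll : Real.log l ≤ L := Real.log_le_log (by exact_mod_cast hl1) (by exact_mod_cast hlk)
    have hll0 : 0 ≤ Real.log l := Real.log_nonneg (by exact_mod_cast hl1)
    have hdiv' : (r : ℤ) ^ ν ∣ ((U : ℤ) ^ l) ^ (2 * j) -
        ((v : ℤ) ^ l * ((2 : ℕ) : ℤ) ^ k₀) ^ (2 * j) := by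
      have h1 : ((U : ℤ) ^ l) ^ (2 * j) = ((U : ℤ) ^ k) ^ 2 := by
        rw [← pow_mul, ← pow_mul, hkl]
        congr 1
        ring
      have h2 : ((v : ℤ) ^ l * ((2 : ℕ) : ℤ) ^ k₀) ^ (2 * j) =
          ((v : ℤ) ^ k * 2 ^ (k - 2)) ^ 2 := by
        rw [mul_comm 2 j, pow_mul, mul_pow, ← pow_mul, ← pow_mul, ← hkl, ← hkk₀]
        push_cast
        ring
      rw [h1, h2]
      exact hdiv
    by_cases hcond : C₀ * r * 1 * (1 + Real.log l) ≤ l
    · -- two logarithms
      have hlX : (k / 3 : ℝ) * Real.log 2 ≤ Real.log X := by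
        have h1 : ((k - 2 : ℕ) : ℝ) * Real.log 2 ≤ Real.log X := by
          rw [← Real.log_pow]
          exact Real.log_le_log (by positivity) (by exact_mod_cast h2X)
        have h2 : (k / 3 : ℝ) ≤ ((k - 2 : ℕ) : ℝ) := by
          have h3 : (3 : ℝ) ≤ k := by exact_mod_cast hk3
          rw [Nat.cast_sub hk]
          push_cast
          linarith
        exact (mul_le_mul_of_nonneg_right h2 (by linarith)).trans h1
      have h1t : 1 ≤ 3 * t := by
        have h2 : k * (0.46 : ℝ) ≤ k * t := by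
          rw [hkt]
          nlinarith
        have := le_of_mul_le_mul_left h2 hk0
        linarith
      have hA1 : 1 ≤ 1 + t := by linarith
      have hUA : Real.log U ≤ 1 + t := by
        have : k * Real.log U ≤ k * (1 + t) := by nlinarith
        exact le_of_mul_le_mul_left this hk0
      have hvA : Real.log v ≤ 1 + t := by
        have : k * Real.log v ≤ k * (1 + t) := by nlinarith
        exact le_of_mul_le_mul_left this hk0
      have hkA : (k₀ : ℝ) ≤ (1 + t) * l := by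
        have h1 : (k₀ : ℝ) ≤ l := by exact_mod_cast hk₀l
        have h2 : (0 : ℝ) ≤ l := by positivity
        nlinarith
      have hmain := hArr r U v 2 k₀ l j ν (1 + t) 1 hr hrU hrv hr2' le_rfl hk₀1 hl1 hj1 hlk₀
        hA1 le_rfl hUA hvA (by push_cast; linarith) hkA hcond hdiv'
      have hlj : Real.log j ≤ 1 := by
        have h1 : Real.log j ≤ Real.log 2 :=
          Real.log_le_log (by exact_mod_cast hj1) (by exact_mod_cast hj2)
        linarith
      have h3 : (1 + Real.log l) ^ 2 ≤ 10 * L ^ 3 := by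
        refine le_trans ?_ hDL2
        exact pow_le_pow_left₀ (by linarith) (by linarith) 2
      have h4 : C₀ * r ^ 3 * ((1 + t) * 1) * (1 + Real.log l) ^ 2 ≤
          C₀ * r ^ 3 * (4 * t) * (10 * L ^ 3) := by
        refine mul_le_mul ?_ h3 (by positivity) (by positivity)
        refine mul_le_mul_of_nonneg_left ?_ (by positivity)
        linarith
      have h5 : (1 : ℝ) ≤ 12 * (L ^ 3 * t) := by linarith
      have h6 : 24 * (L ^ 3 * t) ≤ 20 * C₀ * r ^ 3 * (L ^ 3 * t) := by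
        refine mul_le_mul_of_nonneg_right ?_ hDt.le
        nlinarith
      have h7 : C₀ * r ^ 3 * (4 * t) * (10 * L ^ 3) = 40 * C₀ * r ^ 3 * (L ^ 3 * t) := by ring
      have h8 : 2 * ν * Real.log r ≤ 80 * C₀ * r ^ 3 * (L ^ 3 * t) + 24 * (L ^ 3 * t) := by
        linarith
      linarith
    · -- `k` is small compared with `r`
      have h1 : (l : ℝ) < C₀ * r * (1 + L) := by
        have h2 : C₀ * r * 1 * (1 + Real.log l) ≤ C₀ * r * (1 + L) := by
          rw [mul_one]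
          exact mul_le_mul_of_nonneg_left (by linarith) (by positivity)
        linarith [not_le.1 hcond]
      have h2 : (k : ℝ) ≤ 2 * l := by exact_mod_cast hk2l
      have h3 : (k : ℝ) ≤ C₀ * r * (12 * L ^ 3) := by
        have h4 : C₀ * r * (1 + L) ≤ C₀ * r * (6 * L ^ 3) :=
          mul_le_mul_of_nonneg_left hDL1 (by positivity)
        linarith
      have h5 : k * t ≤ C₀ * r * (12 * L ^ 3) * t := mul_le_mul_of_nonneg_right h3 ht0.le
      have h6 : C₀ * r * (12 * L ^ 3) * t ≤ 100 * C₀ * r ^ 3 * (L ^ 3 * t) := by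
        have h7 : C₀ * r * (12 * L ^ 3) * t = (12 * C₀ * r) * (L ^ 3 * t) := by ring
        rw [h7]
        refine mul_le_mul_of_nonneg_right ?_ hDt.le
        have h8 : (r : ℝ) ≤ r ^ 3 := by linarith
        nlinarith [mul_le_mul_of_nonneg_left h8 (by positivity : 0 ≤ 12 * C₀)]
      linarith

/-- **GAP22R** -/
theorem gap22r (hG : Stmt_Gfac) (hGlr : Stmt_Glr) (hSqf : Stmt_Sqf) (hLtr : Stmt_Ltr)
    (hArr : Stmt_Arr) : Stmt_Gap22r := by
  obtain ⟨C₀, hC₀, hArr⟩ := hArr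
  refine ⟨100 * C₀, by linarith, ?_⟩
  intro k A B c r M hk hA hB hc hco hr hrB hcases
  have hk0 : (0 : ℝ) < k := by
    have : 0 < k := by omega
    exact_mod_cast this
  have hνB : r ^ padicValNat r B ∣ B := pow_padicValNat_dvd
  have hνle : r ^ padicValNat r B ≤ B := Nat.le_of_dvd (by omega) hνB
  rcases hcases with ⟨heq, hM⟩ | ⟨heq, hM⟩ | ⟨heq, hM⟩
  · -- sum of two squares
    obtain ⟨hL0, hD1, hDL, hDL2, hDL1⟩ := logk_facts hk
    obtain ⟨u, v, huv, hu, hv, hodd, huvc, hcase⟩ := hG A B c k hco hA hB hk heq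
    have hrc : ¬ r ∣ c := by
      intro h
      have h1 : r ∣ c ^ k := dvd_pow h (by omega)
      have h2 : r ∣ B ^ 2 := dvd_pow hrB (by norm_num)
      have h3 : r ∣ A ^ 2 := (Nat.dvd_add_left h2).1 (heq ▸ h1)
      have h4 : r ∣ A := hr.dvd_of_dvd_pow h3
      exact hr.one_lt.ne' (Nat.dvd_one.1 (hco ▸ Nat.dvd_gcd h4 hrB))
    have hruv : ¬ (r : ℤ) ∣ u ^ 2 + v ^ 2 := by
      rw [huvc]
      exact_mod_cast hrc
    have hdivB : (r : ℤ) ^ padicValNat r B ∣ (B : ℤ) := by exact_mod_cast hνB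
    set α : GaussianInt := ⟨u, v⟩ with hα
    have him : (α ^ (2 * k)).im = 2 * ((α ^ k).re * (α ^ k).im) := by
      rw [mul_comm 2 k, pow_mul, pow_two, Zsqrtd.im_mul]
      ring
    have hdiv : (r : ℤ) ^ padicValNat r B ∣ (α ^ (2 * k)).im := by
      rw [him]
      refine Dvd.dvd.mul_left ?_ _
      rcases hcase with ⟨_, h⟩ | ⟨_, h⟩
      · rw [h, dvd_abs] at hdivB
        exact Dvd.dvd.mul_left hdivB _
      · rw [h, dvd_abs] at hdivB
        exact Dvd.dvd.mul_right hdivB _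
    have hmain := hGlr r (2 * k) (padicValNat r B) u v hr huv hu hv hodd hruv (by omega) hdiv
    have hc2 : (2 : ℝ) ≤ c := by
      have h1 : (1 : ℤ) ≤ u ^ 2 := by
        have := pow_pos (abs_pos.2 hu) 2
        rw [sq_abs] at this
        linarith
      have h2 : (1 : ℤ) ≤ v ^ 2 := by
        have := pow_pos (abs_pos.2 hv) 2
        rw [sq_abs] at this
        linarith
      have h3 : (2 : ℤ) ≤ c := by rw [← huvc]; linarith
      exact_mod_cast h3
    have huvcr : (u : ℝ) ^ 2 + (v : ℝ) ^ 2 = c := by exact_mod_cast huvc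
    rw [huvcr] at hmain
    set t := Real.log c with ht
    have ht2 : Real.log 2 ≤ t := Real.log_le_log (by norm_num) hc2
    have hl2 := Real.log_two_gt_d9
    have hl2' := Real.log_two_lt_d9
    have hMk : M = k * t := by
      rw [hM, Real.log_pow]
    have hlog2k : Real.log ((2 * k : ℕ) : ℝ) ≤ 1 + Real.log k := by
      push_cast
      rw [Real.log_mul (by norm_num) (by positivity)]
      linarith
    set L := Real.log k with hL
    have hrr : (2 : ℝ) ≤ r := by exact_mod_cast hr.two_le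
    have ht0 : 0 < t := by linarith
    have hDt : 0 < L ^ 3 * t := by positivity
    have htD : t ≤ 4 * (L ^ 3 * t) := by nlinarith
    have h1 : 1 + L ≤ 9 * (L ^ 3 * t) := by
      have : (1 : ℝ) ≤ 1.5 * t := by linarith
      nlinarith [mul_le_mul_of_nonneg_left this (by positivity : 0 ≤ 6 * L ^ 3)]
    have h2 : (r : ℝ) ^ 2 * t ≤ r ^ 2 * (4 * (L ^ 3 * t)) :=
      mul_le_mul_of_nonneg_left htD (by positivity)
    have h3 : 2 * (padicValNat r B) * Real.log r ≤ (8 * r ^ 2 + 18) * (L ^ 3 * t) := by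
      linarith
    have h4 : (8 * (r : ℝ) ^ 2 + 18) * (L ^ 3 * t) ≤ 100 * C₀ * r ^ 3 * (L ^ 3 * t) := by
      refine mul_le_mul_of_nonneg_right ?_ hDt.le
      have h5 : 8 * (r : ℝ) ^ 2 + 18 ≤ 100 * r ^ 3 := by nlinarith
      have h6 : 100 * (r : ℝ) ^ 3 ≤ 100 * C₀ * r ^ 3 :=
        mul_le_mul_of_nonneg_right (by linarith) (by positivity)
      linarith
    have h7 : 100 * C₀ * r ^ 3 * (L ^ 3 / k) * M = 100 * C₀ * r ^ 3 * (L ^ 3 * t) := by
      rw [hMk]
      field_simp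
    rw [h7]
    linarith
  · -- `A` is the largest
    have hAB : B < A := by
      have h1 : 0 < c ^ k := pow_pos (by omega) k
      have h2 : B ^ 2 < A ^ 2 := by omega
      exact lt_of_pow_lt_pow_left₀ 2 (by omega) h2
    have h := gap_diff hSqf hLtr hC₀ hArr k A B c r (padicValNat r B) hk hB hAB hco hr
      (Dvd.dvd.mul_left hrB _) (Dvd.dvd.mul_left hνB _) (hνle.trans hAB.le) heq
    refine h.trans (le_of_eq ?_)
    rw [hM, Real.log_pow]
    push_cast
    field_simp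
  · -- `B` is the largest
    have hAB : A < B := by
      have h1 : 0 < c ^ k := pow_pos (by omega) k
      have h2 : A ^ 2 < B ^ 2 := by omega
      exact lt_of_pow_lt_pow_left₀ 2 (by omega) h2
    have h := gap_diff hSqf hLtr hC₀ hArr k B A c r (padicValNat r B) hk hA hAB hco.symm hr
      (Dvd.dvd.mul_right hrB _) (Dvd.dvd.mul_right hνB _) hνle (by omega)
    refine h.trans (le_of_eq ?_)
    rw [hM, Real.log_pow]
    push_cast
    field_simp

end Pool.Agent.Work.MP_2738db_nt_Y.helper31
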