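import Pool.Agent.Work.MP_2738db_nt_Y.Interface2

/-!
Theorem Y, block CASC: `Y ^ 2 - Z ^ 2 = x ^ p`, one of `Y`, `Z` a `p`-th power.
-/

set_option autoImplicit false

namespace Pool.Agent.Work.MP_2738db_nt_Y.helper31

open Pool.Agent.Work.MP_2738db_nt_Y

theorem abs_log_sub_le {a b : ℝ} (ha : 0 < a) (hab : |b - a| ≤ a / 2) :
    |Real.log b - Real.log a| ≤ 2 * (|b - a| / a) := by
  have h1 := abs_le.1 hab
  have hb : 0 < b := by linarith [h1.1]
  have hnn : 0 ≤ |b - a| := abs_nonneg _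
  rw [abs_le]
  constructor
  · have h2 : Real.log (a / b) ≤ a / b - 1 := Real.log_le_sub_one_of_pos (by positivity)
    rw [Real.log_div ha.ne' hb.ne'] at h2
    have h3 : a / b - 1 ≤ 2 * (|b - a| / a) := by
      have h4 : a / b - 1 = (a - b) / b := by field_simp
      rw [h4]
      have h5 : (a - b) / b ≤ |b - a| / b := by
        apply div_le_div_of_nonneg_right _ hb.le
        rw [abs_sub_comm]
        exact le_abs_self _
      have h6 : |b - a| / b ≤ |b - a| / (a / 2) := by
        apply div_le_div_of_nonneg_left hnn (by linarith) (by linarith [h1.1])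
      have h7 : |b - a| / (a / 2) = 2 * (|b - a| / a) := by field_simp
      linarith
    linarith
  · have h2 : Real.log (b / a) ≤ b / a - 1 := Real.log_le_sub_one_of_pos (by positivity)
    rw [Real.log_div hb.ne' ha.ne'] at h2
    have h4 : b / a - 1 = (b - a) / a := by field_simp
    have h5 : (b - a) / a ≤ |b - a| / a :=
      div_le_div_of_nonneg_right (le_abs_self _) ha.le
    have h6 : 0 ≤ |b - a| / a := by positivity
    linarith

theorem one_le_log_of_three {p : ℕ} (hp : 3 ≤ p) : 1 ≤ Real.log p := by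
  have h3 : Real.log 3 ≤ Real.log p :=
    Real.log_le_log (by norm_num) (by exact_mod_cast hp)
  have he : Real.exp 1 ≤ 3 := by
    have := Real.exp_one_lt_d9
    linarith
  have h1 : Real.log (Real.exp 1) ≤ Real.log 3 := Real.log_le_log (Real.exp_pos 1) he
  rw [Real.log_exp] at h1
  linarith

/-- distinct positive integers have well separated logarithms -/
theorem log_sep {a b : ℕ} {m : ℝ} (ha : 1 ≤ a) (hb : 1 ≤ b) (hab : a ≠ b)
    (hla : Real.log a ≤ m) (hlb : Real.log b ≤ m) :
    Real.exp (-m) / 2 ≤ |Real.log a - Real.log b| := by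
  wlog h : a < b generalizing a b with H
  · have := H hb ha hab.symm hlb hla (by omega)
    rw [abs_sub_comm]
    exact this
  have ha' : (0 : ℝ) < a := by exact_mod_cast ha
  have hb' : (0 : ℝ) < b := by exact_mod_cast hb
  have h1 : (a : ℝ) + 1 ≤ b := by exact_mod_cast h
  have h2 : Real.log (a / b) ≤ a / b - 1 := Real.log_le_sub_one_of_pos (by positivity)
  rw [Real.log_div ha'.ne' hb'.ne'] at h2
  have h3 : (a : ℝ) / b - 1 ≤ -(1 / b) := by
    have : (a : ℝ) / b - 1 = (a - b) / b := by field_simp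
    rw [this, ← neg_div]
    apply div_le_div_of_nonneg_right _ hb'.le
    linarith
  have h4 : Real.exp (-m) ≤ 1 / b := by
    rw [Real.exp_neg, one_div]
    apply inv_anti₀ hb'
    calc (b : ℝ) = Real.exp (Real.log b) := (Real.exp_log hb').symm
      _ ≤ Real.exp m := Real.exp_le_exp.2 hlb
  have h5 : Real.log b - Real.log a ≤ |Real.log a - Real.log b| := by
    rw [abs_sub_comm]
    exact le_abs_self _
  have h6 : 0 < Real.exp (-m) := Real.exp_pos _
  linarith

theorem casc (hS : Stmt_Sqf) (hQ : Stmt_Arq) : Stmt_Casc := by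
  obtain ⟨C₀, hC₀, hQ⟩ := hQ
  refine ⟨8 * C₀ + 8, by linarith, ?_⟩
  intro p x Y Z w hp hp3 hx hZ hZY hcop hw hxp
  -- notation
  have hp0 : (0 : ℝ) < p := by exact_mod_cast (show 0 < p by omega)
  have hlp : 1 ≤ Real.log p := one_le_log_of_three hp3
  have hlp0 : 0 < Real.log p := by linarith
  have hY2 : 2 ≤ Y := by omega
  have hx2 : 2 ≤ x := by
    rcases Nat.lt_or_ge x 2 with h | h
    · exfalso
      have hx1 : x = 1 := by omega
      subst hx1
      rw [one_pow] at hxp
      nlinarith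
    · exact h
  have hYr : (2 : ℝ) ≤ Y := by exact_mod_cast hY2
  have hY0 : (0 : ℝ) < Y := by linarith
  have hx0 : (0 : ℝ) < x := by exact_mod_cast (show 0 < x by omega)
  have hxpY : (x : ℝ) ^ p ≤ (Y : ℝ) ^ 2 := by
    exact_mod_cast (show x ^ p ≤ Y ^ 2 by omega)
  have hlog2 : 0.6931 < Real.log 2 := by
    have := Real.log_two_gt_d9
    linarith
  have hlog2' : Real.log 2 < 0.6932 := by
    have := Real.log_two_lt_d9
    linarith
  -- `LM = 2 log Y`
  obtain ⟨LM, hLM⟩ : ∃ LM : ℝ, LM = 2 * Real.log Y := ⟨_, rfl⟩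
  obtain ⟨D, hD⟩ : ∃ D : ℝ, D = 2 * Real.log Y - p * Real.log x := ⟨_, rfl⟩
  have hplx : p * Real.log x ≤ LM := by
    have h1 : Real.log ((x : ℝ) ^ p) ≤ Real.log ((Y : ℝ) ^ 2) :=
      Real.log_le_log (by positivity) hxpY
    rw [Real.log_pow, Real.log_pow] at h1
    rw [hLM]
    exact_mod_cast h1
  have hpl2 : p * Real.log 2 ≤ LM := by
    have : Real.log 2 ≤ Real.log x := Real.log_le_log (by norm_num) (by exact_mod_cast hx2)
    nlinarith
  have hLMp : 0.6931 ≤ LM / p := by
    rw [le_div_iff₀ hp0]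
    nlinarith
  have hLM0 : 0 < LM := by nlinarith
  have hlx0 : 0 ≤ Real.log x := Real.log_nonneg (by exact_mod_cast (show 1 ≤ x by omega))
  have hDLM : D ≤ LM := by
    rw [hD, hLM]
    nlinarith
  -- the target
  have hcube : 1 ≤ Real.log p ^ 3 := one_le_pow₀ hlp
  have hsq_cube : Real.log p ^ 2 ≤ Real.log p ^ 3 := by nlinarith [sq_nonneg (Real.log p)]
  rw [← hD, ← hLM]
  have key : ∀ E : ℝ, E ≤ C₀ * (2 * (LM / p)) * (4 * Real.log p ^ 2) + 5 * (LM / p) →
      D ≤ E → D ≤ (8 * C₀ + 8) * (Real.log p ^ 3 / p) * LM := by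
    intro E hE hDE
    have h1 : (8 * C₀ + 8) * (Real.log p ^ 3 / p) * LM
        = (8 * C₀) * (LM / p) * Real.log p ^ 3 + 8 * (LM / p) * Real.log p ^ 3 := by
      field_simp
    rw [h1]
    have h2 : (8 * C₀) * (LM / p) * Real.log p ^ 2 ≤ (8 * C₀) * (LM / p) * Real.log p ^ 3 := by
      apply mul_le_mul_of_nonneg_left hsq_cube
      have : 0 ≤ LM / p := by linarith
      positivity
    have h3 : 8 * (LM / p) * 1 ≤ 8 * (LM / p) * Real.log p ^ 3 := by
      apply mul_le_mul_of_nonneg_left hcube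
      linarith
    nlinarith
  by_cases hbig : C₀ * (1 + Real.log p) ≤ p
  swap
  · -- `p` small
    push Not at hbig
    have h1 : (p : ℝ) ≤ (8 * C₀ + 8) * Real.log p ^ 3 := by nlinarith
    have h2 : 1 ≤ (8 * C₀ + 8) * (Real.log p ^ 3 / p) := by
      rw [← mul_div_assoc, le_div_iff₀ hp0]
      linarith
    nlinarith
  by_cases hDs : D ≤ Real.log 2
  · exact key (LM / p * 2) (by
      have : 0 ≤ LM / p := by linarith
      have h2 : 0 ≤ C₀ * (2 * (LM / p)) * (4 * Real.log p ^ 2) := by positivity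
      linarith) (by linarith)
  push Not at hDs
  -- the small quantity
  have hsum0 : (0 : ℝ) < (Y : ℝ) + Z := by positivity
  have hprod : ((Y : ℝ) - Z) * (Y + Z) = (x : ℝ) ^ p := by
    have : ((Z : ℝ)) ^ 2 + (x : ℝ) ^ p = (Y : ℝ) ^ 2 := by exact_mod_cast hxp
    linarith [this, show ((Y : ℝ) - Z) * (Y + Z) = (Y : ℝ) ^ 2 - (Z : ℝ) ^ 2 by ring]
  have hZYr : (Z : ℝ) < Y := by exact_mod_cast hZY
  have he : ((Y : ℝ) - Z) / (Y + Z) ≤ Real.exp (-D) := by
    have h1 : Real.exp (-D) = (x : ℝ) ^ p / (Y : ℝ) ^ 2 := by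
      rw [hD]
      have : -(2 * Real.log Y - p * Real.log x)
          = Real.log ((x : ℝ) ^ p) - Real.log ((Y : ℝ) ^ 2) := by
        rw [Real.log_pow, Real.log_pow]
        push_cast
        ring
      rw [this, Real.exp_sub, Real.exp_log (by positivity), Real.exp_log (by positivity)]
    rw [h1, div_le_div_iff₀ hsum0 (by positivity), ← hprod]
    have h2 : (0 : ℝ) ≤ Y - Z := by linarith
    have h3 : (Y : ℝ) ^ 2 ≤ (Y + Z) * (Y + Z) := by
      have : (0 : ℝ) ≤ Z := by positivity
      nlinarith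
    calc ((Y : ℝ) - Z) * (Y : ℝ) ^ 2 ≤ ((Y : ℝ) - Z) * ((Y + Z) * (Y + Z)) :=
          mul_le_mul_of_nonneg_left h3 h2
      _ = ((Y : ℝ) - Z) * (Y + Z) * (Y + Z) := by ring
  have he2 : Real.exp (-D) ≤ 1 / 2 := by
    have h2 : Real.exp (-Real.log 2) = 1 / 2 := by
      rw [Real.exp_neg, Real.exp_log (by norm_num)]
      norm_num
    have : Real.exp (-D) ≤ Real.exp (-Real.log 2) := Real.exp_le_exp.2 (by linarith)
    rw [h2] at this
    exact this
  -- `W = w ^ p`
  have hw0 : 1 ≤ w := by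
    rcases Nat.eq_zero_or_pos w with h | h
    · subst h
      rw [zero_pow (by omega)] at hw
      omega
    · exact h
  have hw0r : (0 : ℝ) < w := by exact_mod_cast hw0
  have hW : |2 * (w : ℝ) ^ p - (Y + Z)| = Y - Z := by
    rcases hw with h | h
    · have : (w : ℝ) ^ p = Y := by rw [h]; push_cast; rfl
      rw [this, abs_of_nonneg (by linarith)]
      ring
    · have : (w : ℝ) ^ p = Z := by rw [h]; push_cast; rfl
      rw [this, abs_of_nonpos (by linarith)]
      ring
  have hδ : |Real.log 2 + p * Real.log w - Real.log ((Y : ℝ) + Z)| ≤ 2 * Real.exp (-D) := by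
    have h1 : |2 * (w : ℝ) ^ p - (Y + Z)| ≤ (Y + Z) / 2 := by
      rw [hW]
      have := he.trans he2
      rw [div_le_iff₀ hsum0] at this
      linarith
    have h2 := abs_log_sub_le hsum0 h1
    rw [hW, Real.log_mul (by norm_num) (by positivity), Real.log_pow] at h2
    linarith
  have hwY : (w : ℝ) ^ p ≤ Y := by
    rcases hw with h | h
    · rw [h]; push_cast; exact le_refl _
    · have : (w : ℝ) ^ p = Z := by rw [h]; push_cast; rfl
      linarith
  -- logarithms of the roots
  have hlogroot : ∀ v : ℕ, 1 ≤ v → (v : ℝ) ^ p ≤ 2 * Y → Real.log v ≤ LM / p := by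
    intro v hv hvY
    have hv0 : (0 : ℝ) < v := by exact_mod_cast hv
    have h1 : Real.log ((v : ℝ) ^ p) ≤ Real.log (2 * (Y : ℝ)) :=
      Real.log_le_log (by positivity) hvY
    rw [Real.log_pow, Real.log_mul (by norm_num) hY0.ne'] at h1
    have h2 : Real.log 2 ≤ Real.log Y := Real.log_le_log (by norm_num) hYr
    rw [le_div_iff₀ hp0, hLM]
    linarith
  have hlw : Real.log w ≤ LM / p := hlogroot w hw0 (by linarith)
  have hYZ : (Y : ℝ) + Z ≤ 2 * Y := by linarith
  have hA1 : (1 : ℝ) ≤ 2 * (LM / p) := by linarith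
  have hlogp1 : (1 + Real.log p) ^ 2 ≤ 4 * Real.log p ^ 2 := by nlinarith
  have hA0 : 0 ≤ LM / p := by linarith
  have hfin : ∀ k₀ X₁ X₂ : ℕ, 1 ≤ k₀ → k₀ ≤ p → Nat.Coprime p k₀ → 1 ≤ X₁ → 1 ≤ X₂ →
      Real.log X₁ ≤ LM / p → Real.log X₂ ≤ LM / p →
      |p * (Real.log X₁ - Real.log X₂) - k₀ * Real.log 2| ≤ 2 * Real.exp (-D) →
      D ≤ (8 * C₀ + 8) * (Real.log p ^ 3 / p) * LM := by
    intro k₀ X₁ X₂ hk1 hkp hkc hX1 hX2 hl1 hl2 hup
    have hk : (k₀ : ℝ) ≤ 2 * (LM / p) * p := by
      have : (k₀ : ℝ) ≤ p := by exact_mod_cast hkp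
      nlinarith
    have hlow := hQ X₁ X₂ 2 k₀ p (2 * (LM / p)) 1 hX1 hX2 (le_refl _) hk1 (by omega) hkc hA1
      (le_refl _) (by linarith) (by linarith) (by
        push_cast
        linarith) hk (by rw [mul_one]; exact hbig)
    have hcast : (((2 : ℕ) : ℝ)) = 2 := by norm_num
    rw [hcast] at hlow
    have h1 := hlow.trans hup
    have h2 : Real.exp (-(C₀ * (2 * (LM / p) * 1) * (1 + Real.log p) ^ 2)) ≤
        Real.exp (Real.log 2 - D) := by
      rw [Real.exp_sub, Real.exp_log (by norm_num)]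
      rw [Real.exp_neg] at h1 ⊢
      rw [Real.exp_neg] at h1
      rw [div_eq_mul_inv]
      exact h1
    have h3 := Real.exp_le_exp.1 h2
    have h4 : C₀ * (2 * (LM / p) * 1) * (1 + Real.log p) ^ 2
        ≤ C₀ * (2 * (LM / p)) * (4 * Real.log p ^ 2) := by
      rw [mul_one]
      apply mul_le_mul_of_nonneg_left hlogp1
      positivity
    exact key _ (le_refl _) (by linarith)
  rcases hS Y Z x p hcop hZ hZY (by omega) hxp with ⟨U, v, hU, hUv, hYU, hYv⟩ |
    ⟨U, v, hU, hv, ⟨hYU, hYv⟩ | ⟨hYU, hYv⟩⟩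
  · -- case 1: `Y + Z = v ^ p`
    have hYvr : (Y : ℝ) + Z = (v : ℝ) ^ p := by exact_mod_cast hYv
    have hlv : Real.log v ≤ LM / p := hlogroot v (by omega) (by rw [← hYvr]; exact hYZ)
    apply hfin 1 v w (le_refl _) (by omega) (Nat.coprime_one_right p) (by omega) hw0 hlv hlw
    rw [hYvr, Real.log_pow, abs_sub_comm] at hδ
    push_cast
    have : (p : ℝ) * (Real.log v - Real.log w) - 1 * Real.log 2
        = p * Real.log v - (Real.log 2 + p * Real.log w) := by ring
    rw [this]
    exact hδ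
  · -- case 2a
    have hv0 : (0 : ℝ) < v := by exact_mod_cast hv
    have hYvr : (Y : ℝ) + Z = 2 ^ (p - 1) * (v : ℝ) ^ p := by exact_mod_cast hYv
    have hone : (1 : ℝ) ≤ 2 ^ (p - 1) := one_le_pow₀ (by norm_num)
    have hvp : (v : ℝ) ^ p ≤ 2 * Y := by
      have h0 : (0 : ℝ) ≤ (v : ℝ) ^ p := by positivity
      nlinarith
    have hlv : Real.log v ≤ LM / p := hlogroot v hv hvp
    have hcop2 : Nat.Coprime p (p - 2) := by
      obtain ⟨s, rfl⟩ : ∃ s, p = s + 2 := ⟨p - 2, by omega⟩
      have h1 : s + 2 - 2 = s := by omega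
      rw [h1]
      have h2 : Nat.Coprime 2 s := by
        rw [Nat.coprime_two_left]
        rcases Nat.even_or_odd s with h | h
        · exfalso
          have h3 : Even (s + 2) := h.add (by decide)
          have h4 := (Nat.Prime.eq_two_or_odd' hp).resolve_left (by omega)
          exact (Nat.not_even_iff_odd.2 h4) h3
        · exact h
      simpa using h2
    apply hfin (p - 2) w v (by omega) (by omega) hcop2 hw0 hv hlw hlv
    rw [hYvr, Real.log_mul (by positivity) (by positivity), Real.log_pow, Real.log_pow] at hδ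
    have h1 : ((p - 1 : ℕ) : ℝ) = p - 1 := by
      rw [Nat.cast_sub (by omega)]
      norm_num
    have h2 : ((p - 2 : ℕ) : ℝ) = p - 2 := by
      rw [Nat.cast_sub (by omega)]
      norm_num
    rw [h1] at hδ
    rw [h2]
    have : (p : ℝ) * (Real.log w - Real.log v) - (p - 2) * Real.log 2
        = Real.log 2 + p * Real.log w - ((p - 1) * Real.log 2 + p * Real.log v) := by ring
    rw [this]
    exact hδ
  · -- case 2b
    have hU0 : (0 : ℝ) < U := by exact_mod_cast hU
    have hYvr : (Y : ℝ) + Z = 2 * (U : ℝ) ^ p := by exact_mod_cast hYv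
    have hUp : (U : ℝ) ^ p ≤ 2 * Y := by
      have h0 : (0 : ℝ) ≤ (U : ℝ) ^ p := by positivity
      linarith
    have hlU : Real.log U ≤ LM / p := hlogroot U hU hUp
    have hne : w ≠ U := by
      intro hwU
      have h1 : |2 * (w : ℝ) ^ p - (Y + Z)| = 0 := by
        rw [hYvr, hwU]
        simp
      rw [hW] at h1
      linarith
    have hsep := log_sep hw0 hU hne hlw hlU
    rw [hYvr, Real.log_mul (by norm_num) (by positivity), Real.log_pow] at hδ
    have h1 : Real.log 2 + p * Real.log w - (Real.log 2 + p * Real.log U)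
        = p * (Real.log w - Real.log U) := by ring
    rw [h1, abs_mul, abs_of_pos hp0] at hδ
    have h2 : |Real.log w - Real.log U| ≤ p * |Real.log w - Real.log U| := by
      have : (1 : ℝ) ≤ p := by exact_mod_cast (show 1 ≤ p by omega)
      nlinarith [abs_nonneg (Real.log w - Real.log U)]
    have h3 : Real.exp (-(LM / p)) ≤ 4 * Real.exp (-D) := by linarith
    have h4 : Real.exp (-(LM / p)) ≤ Real.exp (Real.log 4 - D) := by
      rw [Real.exp_sub, Real.exp_log (by norm_num)]
      rw [Real.exp_neg] at h3 ⊢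
      rw [Real.exp_neg] at h3
      rw [div_eq_mul_inv]
      exact h3
    have h5 := Real.exp_le_exp.1 h4
    have h6 : Real.log 4 = 2 * Real.log 2 := by
      rw [show (4 : ℝ) = 2 ^ 2 by norm_num, Real.log_pow]
      norm_num
    refine key (LM / p + 1.3864) ?_ (by linarith)
    have h7 : 0 ≤ C₀ * (2 * (LM / p)) * (4 * Real.log p ^ 2) := by positivity
    linarith

end Pool.Agent.Work.MP_2738db_nt_Y.helper31
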