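import Pool.Agent.Work.MP_2738db_nt_Y.Interface5

/-!
Theorem Y, phase 5, block R3B: the `r`-part of `c ^ k = x ^ 3 ± y ^ 3`, `r ≠ 3`.
-/

set_option autoImplicit false
set_option linter.unusedSectionVars false

namespace Pool.Agent.Work.MP_2738db_nt_Y.helper31

open Finset NumberField
open Pool.Agent.Work.MP_2738db_nt_A (HB)
open Pool.Agent.Work.MP_2738db_nt_Y

section
variable {K : Type} [Field K] [NumberField K]

theorem b3_not_isUnit_nat {r : ℕ} (hr : 2 ≤ r) : ¬ IsUnit ((r : ℕ) : 𝓞 K) := by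
  intro h
  have h1 : IsUnit (Algebra.norm ℤ ((r : ℕ) : 𝓞 K)) := h.map _
  have h2 : ((r : ℕ) : 𝓞 K) = algebraMap ℤ (𝓞 K) (r : ℤ) := by simp
  rw [h2, Algebra.norm_algebraMap] at h1
  have h3 : 0 < Module.finrank ℤ (𝓞 K) := Module.finrank_pos
  have h4 : IsUnit ((r : ℤ)) := (isUnit_pow_iff h3.ne').mp h1
  rcases Int.isUnit_iff.mp h4 with h5 | h5 <;> omega

theorem b3_exists_prime {r : ℕ} (hr : 2 ≤ r) :
    ∃ P : Ideal (𝓞 K), P.IsPrime ∧ P ≠ ⊥ ∧ ((r : ℕ) : 𝓞 K) ∈ P := by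
  have h1 : Ideal.span {((r : ℕ) : 𝓞 K)} ≠ ⊤ := by
    intro h
    exact b3_not_isUnit_nat hr (Ideal.span_singleton_eq_top.mp h)
  obtain ⟨P, hP, hle⟩ := Ideal.exists_le_maximal _ h1
  have hmem : ((r : ℕ) : 𝓞 K) ∈ P := hle (Ideal.subset_span (Set.mem_singleton _))
  refine ⟨P, hP.isPrime, ?_, hmem⟩
  intro h
  rw [h, Ideal.mem_bot] at hmem
  have : r = 0 := by exact_mod_cast hmem
  omega

/-- `1, ζ` are independent over `ℤ` -/
theorem b3_linind {ζ : 𝓞 K} (hz : ζ ^ 2 = -ζ - 1) {a b : ℤ}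
    (h : (a : 𝓞 K) + (b : 𝓞 K) * ζ = 0) : a = 0 ∧ b = 0 := by
  have h1 : ((a ^ 2 - a * b + b ^ 2 : ℤ) : 𝓞 K) = 0 := by
    push_cast
    linear_combination ((a : 𝓞 K) - b - b * ζ) * h + (b : 𝓞 K) ^ 2 * hz
  have h2 : a ^ 2 - a * b + b ^ 2 = 0 := by exact_mod_cast h1
  have hb : b = 0 := by
    have h3 : b ^ 2 ≤ 0 := by nlinarith [sq_nonneg (2 * a - b)]
    exact pow_eq_zero_iff (two_ne_zero) |>.mp (le_antisymm h3 (sq_nonneg b))
  subst hb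
  have h4 : a ^ 2 = 0 := by linarith
  exact ⟨pow_eq_zero_iff (two_ne_zero) |>.mp h4, rfl⟩

theorem b3_fac3 {ζ : 𝓞 K} (hz : ζ ^ 2 = -ζ - 1) (a b : 𝓞 K) :
    (a - b) * ((a - ζ * b) * (a - ζ ^ 2 * b)) = a ^ 3 - b ^ 3 := by
  linear_combination (a - b) * (-(a * b) + (ζ - 1) * b ^ 2) * hz

theorem b3_fac6 {ζ : 𝓞 K} (hz : ζ ^ 2 = -ζ - 1) {a b : 𝓞 K} (h : a ^ 6 = b ^ 6) :
    a - b = 0 ∨ a - ζ * b = 0 ∨ a - ζ ^ 2 * b = 0 ∨ a + b = 0 ∨ a + ζ * b = 0 ∨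
      a + ζ ^ 2 * b = 0 := by
  have h1 : (a ^ 3 - b ^ 3) * (a ^ 3 - (-b) ^ 3) = 0 := by
    linear_combination h
  rw [← b3_fac3 hz a b, ← b3_fac3 hz a (-b)] at h1
  rcases mul_eq_zero.mp h1 with h2 | h2
  · rcases mul_eq_zero.mp h2 with h3 | h3
    · exact Or.inl h3
    rcases mul_eq_zero.mp h3 with h4 | h4
    · exact Or.inr (Or.inl h4)
    · exact Or.inr (Or.inr (Or.inl h4))
  · rcases mul_eq_zero.mp h2 with h3 | h3
    · exact Or.inr (Or.inr (Or.inr (Or.inl (by linear_combination h3))))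
    rcases mul_eq_zero.mp h3 with h4 | h4
    · exact Or.inr (Or.inr (Or.inr (Or.inr (Or.inl (by linear_combination h4)))))
    · exact Or.inr (Or.inr (Or.inr (Or.inr (Or.inr (by linear_combination h4)))))

theorem b3_ne1 {ζ : 𝓞 K} (hz : ζ ^ 2 = -ζ - 1) {x Y : ℤ} (hx : x ≠ 0) (hY : Y ≠ 0) :
    ((x : 𝓞 K) - (Y : 𝓞 K)) ^ 6 ≠ ((x : 𝓞 K) - ζ * (Y : 𝓞 K)) ^ 6 := by
  intro h
  rcases b3_fac6 hz h with h1 | h1 | h1 | h1 | h1 | h1
  · obtain ⟨h2, h3⟩ := b3_linind hz (a := -Y) (b := Y) (by push_cast; linear_combination h1)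
    exact hY h3
  · obtain ⟨h2, h3⟩ := b3_linind hz (a := x - 2 * Y) (b := -x - Y)
      (by push_cast; linear_combination h1 - (Y : 𝓞 K) * hz)
    apply hY; omega
  · obtain ⟨h2, h3⟩ := b3_linind hz (a := 2 * x) (b := x)
      (by push_cast; linear_combination h1 + ((x : 𝓞 K) - (ζ - 1) * (Y : 𝓞 K)) * hz)
    exact hx h3
  · obtain ⟨h2, h3⟩ := b3_linind hz (a := 2 * x - Y) (b := -Y)
      (by push_cast; linear_combination h1)
    apply hY; omega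
  · obtain ⟨h2, h3⟩ := b3_linind hz (a := x) (b := x + Y)
      (by push_cast; linear_combination h1 + (Y : 𝓞 K) * hz)
    exact hx h2
  · obtain ⟨h2, h3⟩ := b3_linind hz (a := -2 * Y) (b := -x)
      (by push_cast; linear_combination h1 - ((x : 𝓞 K) - (ζ - 1) * (Y : 𝓞 K)) * hz)
    apply hY; omega

theorem b3_ne2 {ζ : 𝓞 K} (hz : ζ ^ 2 = -ζ - 1) {x Y : ℤ} (hx : x ≠ 0) (hY : Y ≠ 0)
    (h1 : x + Y ≠ 0) (h2 : x - Y ≠ 0) (h3 : 2 * x + Y ≠ 0) (h4 : x + 2 * Y ≠ 0) :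
    ((x : 𝓞 K) - ζ * (Y : 𝓞 K)) ^ 6 ≠ ((x : 𝓞 K) - ζ ^ 2 * (Y : 𝓞 K)) ^ 6 := by
  intro h
  have hz2 : ζ ^ 2 = -ζ - 1 := hz
  rw [hz2] at h
  rcases b3_fac6 hz h with g | g | g | g | g | g
  · obtain ⟨g1, g2⟩ := b3_linind hz (a := -Y) (b := -2 * Y)
      (by push_cast; linear_combination g)
    apply hY; omega
  · obtain ⟨g1, g2⟩ := b3_linind hz (a := x + Y) (b := -(x + Y))
      (by push_cast; linear_combination g + (Y : 𝓞 K) * hz)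
    exact h1 g1
  · obtain ⟨g1, g2⟩ := b3_linind hz (a := 2 * x) (b := x)
      (by push_cast; linear_combination g + ((x : 𝓞 K) + ζ * (Y : 𝓞 K)) * hz)
    exact hx g2
  · obtain ⟨g1, g2⟩ := b3_linind hz (a := 2 * x + Y) (b := 0)
      (by push_cast; linear_combination g)
    exact h3 g1
  · obtain ⟨g1, g2⟩ := b3_linind hz (a := x - Y) (b := x - Y)
      (by push_cast; linear_combination g - (Y : 𝓞 K) * hz)
    exact h2 g1
  · obtain ⟨g1, g2⟩ := b3_linind hz (a := 0) (b := -(x + 2 * Y))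
      (by push_cast; linear_combination g - ((x : 𝓞 K) + ζ * (Y : 𝓞 K)) * hz)
    apply h4; omega


/-- the three sixth powers -/
theorem b3_delta {ζ : 𝓞 K} (hz : ζ ^ 2 = -ζ - 1) :
    (1 - ζ) ^ 6 = -27 ∧ (1 - ζ ^ 2) ^ 6 = -27 ∧ (ζ - ζ ^ 2) ^ 6 = -27 := by
  have h3 : ζ ^ 3 = 1 := by linear_combination (ζ - 1) * hz
  have e1 : (1 - ζ) ^ 2 = -3 * ζ := by linear_combination hz
  have e2 : (1 - ζ ^ 2) ^ 2 = -3 * ζ ^ 2 := by
    have h4 : (1 - ζ ^ 2) ^ 2 = 1 - 2 * ζ ^ 2 + ζ * ζ ^ 3 := by ring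
    rw [h4, h3]
    linear_combination hz
  have e3 : (ζ - ζ ^ 2) ^ 2 = -3 := by
    have h4 : (ζ - ζ ^ 2) ^ 2 = ζ ^ 2 - 2 * ζ ^ 3 + ζ * ζ ^ 3 := by ring
    rw [h4, h3]
    linear_combination hz
  refine ⟨?_, ?_, ?_⟩
  · have : (1 - ζ) ^ 6 = ((1 - ζ) ^ 2) ^ 3 := by ring
    rw [this, e1]
    linear_combination (-27 : 𝓞 K) * h3
  · have : (1 - ζ ^ 2) ^ 6 = ((1 - ζ ^ 2) ^ 2) ^ 3 := by ring
    rw [this, e2]
    linear_combination (-27 * (ζ ^ 3 + 1) : 𝓞 K) * h3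
  · have : (ζ - ζ ^ 2) ^ 6 = ((ζ - ζ ^ 2) ^ 2) ^ 3 := by ring
    rw [this, e3]
    norm_num

theorem b3_three_of_delta {P : Ideal (𝓞 K)} (hP : P.IsPrime) {δ : 𝓞 K} (hδ : δ ^ 6 = -27)
    (h : δ ∈ P) : (3 : 𝓞 K) ∈ P := by
  have h1 : δ ^ 6 ∈ P := Ideal.pow_mem_of_mem P h 6 (by norm_num)
  rw [hδ] at h1
  have h2 : (3 : 𝓞 K) ^ 3 ∈ P := by
    have := P.neg_mem h1
    norm_num at this ⊢
    exact this
  exact hP.mem_of_pow_mem _ h2

/-- the congruence for one of the two other factors -/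
theorem b3_cong6 {I : Ideal (𝓞 K)} {w0 w δ Y : 𝓞 K} (h0 : w0 ∈ I) (hw : w = w0 + δ * Y)
    (hδ : δ ^ 6 = -27) : w ^ 6 + 27 * Y ^ 6 ∈ I := by
  have h1 : w ^ 6 - (δ * Y) ^ 6 ∈ I := by
    refine Ideal.mem_of_dvd _ (sub_dvd_pow_sub_pow _ _ 6) ?_
    have : w - δ * Y = w0 := by rw [hw]; ring
    rw [this]; exact h0
  have h2 : w ^ 6 - (δ * Y) ^ 6 = w ^ 6 + 27 * Y ^ 6 := by
    rw [mul_pow, hδ]; ring
  rwa [h2] at h1

/-- the special factor, and the congruence between the two others -/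
theorem b3_exists_factor {ζ : 𝓞 K} (hz : ζ ^ 2 = -ζ - 1) {P : Ideal (𝓞 K)} (hP : P.IsPrime)
    (h3 : (3 : 𝓞 K) ∉ P) {x y : 𝓞 K} (hy : y ∉ P) {m : ℕ}
    (h : x ^ 3 - y ^ 3 ∈ P ^ m) :
    (x - ζ * y ∉ P ∧ x - ζ ^ 2 * y ∉ P ∧ (x - ζ * y) ^ 6 - (x - ζ ^ 2 * y) ^ 6 ∈ P ^ m) ∨
    (x - y ∉ P ∧ x - ζ ^ 2 * y ∉ P ∧ (x - y) ^ 6 - (x - ζ ^ 2 * y) ^ 6 ∈ P ^ m) ∨
    (x - y ∉ P ∧ x - ζ * y ∉ P ∧ (x - y) ^ 6 - (x - ζ * y) ^ 6 ∈ P ^ m) := by
  obtain ⟨d1, d2, d3⟩ := b3_delta hz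
  have hdiff : ∀ w w' δ : 𝓞 K, δ ^ 6 = -27 → w - w' = δ * y → w ∈ P → w' ∉ P := by
    intro w w' δ hδ e h1 h2
    have h4 : δ * y ∈ P := by
      rw [← e]; exact P.sub_mem h1 h2
    rcases hP.mem_or_mem h4 with h5 | h5
    · exact h3 (b3_three_of_delta hP hδ h5)
    · exact hy h5
  have hn : ∀ δ : 𝓞 K, δ ^ 6 = -27 → (-δ) ^ 6 = -27 := by
    intro δ hδ
    rw [← hδ]; ring
  have hfin : ∀ w0 w w' δ δ' : 𝓞 K, δ ^ 6 = -27 → δ' ^ 6 = -27 → w = w0 + δ * y →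
      w' = w0 + δ' * y → w0 ∈ P ^ m → w ^ 6 - w' ^ 6 ∈ P ^ m := by
    intro w0 w w' δ δ' hδ hδ' e e' h0
    have := Ideal.sub_mem _ (b3_cong6 h0 e hδ) (b3_cong6 h0 e' hδ')
    have e1 : w ^ 6 + 27 * y ^ 6 - (w' ^ 6 + 27 * y ^ 6) = w ^ 6 - w' ^ 6 := by ring
    rwa [e1] at this
  rw [← b3_fac3 hz x y] at h
  have := hP
  by_cases c1 : x - y ∈ P
  · have h2 := hdiff (x - y) (x - ζ * y) (-(1 - ζ)) (hn _ d1) (by ring) c1
    have h2' := hdiff (x - y) (x - ζ ^ 2 * y) (-(1 - ζ ^ 2)) (hn _ d2) (by ring) c1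
    left
    refine ⟨h2, h2', ?_⟩
    have h0 : x - y ∈ P ^ m := by
      rw [mul_comm] at h
      refine (Ideal.IsPrime.mul_mem_pow P h).resolve_left ?_
      intro h9
      rcases hP.mem_or_mem h9 with h9 | h9
      · exact h2 h9
      · exact h2' h9
    exact hfin (x - y) _ _ (1 - ζ) (1 - ζ ^ 2) d1 d2 (by ring) (by ring) h0
  replace h := (Ideal.IsPrime.mul_mem_pow P h).resolve_left c1
  by_cases c2 : x - ζ * y ∈ P
  · have h2 := hdiff (x - ζ * y) (x - ζ ^ 2 * y) (-(ζ - ζ ^ 2)) (hn _ d3) (by ring) c2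
    right; left
    refine ⟨c1, h2, ?_⟩
    have h0 : x - ζ * y ∈ P ^ m := by
      rw [mul_comm] at h
      exact (Ideal.IsPrime.mul_mem_pow P h).resolve_left h2
    exact hfin (x - ζ * y) _ _ (-(1 - ζ)) (ζ - ζ ^ 2) (hn _ d1) d3 (by ring) (by ring) h0
  replace h := (Ideal.IsPrime.mul_mem_pow P h).resolve_left c2
  right; right
  refine ⟨c1, c2, ?_⟩
  exact hfin (x - ζ ^ 2 * y) _ _ (-(1 - ζ ^ 2)) (-(ζ - ζ ^ 2)) (hn _ d2) (hn _ d3) (by ring)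
    (by ring) h

theorem b3_HB_mono {z : 𝓞 K} {a b : ℝ} (h : HB K z a) (hab : a ≤ b) : HB K z b :=
  fun v => (h v).trans (Real.exp_le_exp.mpr hab)

theorem b3_abs_zeta {ζ : 𝓞 K} (hz : ζ ^ 2 = -ζ - 1) (v : InfinitePlace K) (j : ℕ) :
    v ((ζ ^ j : 𝓞 K) : K) = 1 := by
  have h3 : ζ ^ 3 = 1 := by linear_combination (ζ - 1) * hz
  have h1 : v ((ζ : K)) ^ 3 = 1 := by
    rw [← map_pow]
    have : ((ζ : K)) ^ 3 = ((ζ ^ 3 : 𝓞 K) : K) := by simp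
    rw [this, h3]
    simp
  have h2 : v ((ζ : K)) = 1 :=
    (pow_eq_one_iff_of_nonneg (apply_nonneg _ _) (by norm_num)).mp h1
  have h4 : ((ζ ^ j : 𝓞 K) : K) = (ζ : K) ^ j := by simp
  rw [h4, map_pow, h2, one_pow]

/-- an integer at a place -/
theorem b3_place_int (v : InfinitePlace K) (n : ℤ) : v (((n : 𝓞 K)) : K) = |(n : ℝ)| := by
  have h1 : ((n : 𝓞 K) : K) = (n : K) := by simp
  rw [h1, ← InfinitePlace.norm_embedding_eq, map_intCast, Complex.norm_intCast]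

theorem b3_place_le {ζ : 𝓞 K} (hz : ζ ^ 2 = -ζ - 1) (v : InfinitePlace K) (j : ℕ) (x Y : ℤ) :
    v (((x : 𝓞 K) - ζ ^ j * (Y : 𝓞 K) : 𝓞 K) : K) ≤ |(x : ℝ)| + |(Y : ℝ)| := by
  have h1 : (((x : 𝓞 K) - ζ ^ j * (Y : 𝓞 K) : 𝓞 K) : K) =
      (((x : 𝓞 K)) : K) - ((ζ ^ j : 𝓞 K) : K) * (((Y : 𝓞 K)) : K) := by simp
  have h2 := b3_place_int v x
  have h3 := b3_place_int v Y
  have h4 := b3_abs_zeta hz v j
  rw [h1]
  rw [← InfinitePlace.norm_embedding_eq] at h2 h3 h4 ⊢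
  rw [map_sub, map_mul]
  refine (norm_sub_le _ _).trans ?_
  rw [norm_mul, h2, h3, h4, one_mul]

/-- the height of `β` -/
theorem b3_HB_beta {w κ β : 𝓞 K} {c k : ℕ} (hc : 1 ≤ c) (hk : 1 ≤ k)
    (hw : ∀ v : InfinitePlace K, v (w : K) ≤ (c : ℝ) ^ k)
    (hκ : ∀ v : InfinitePlace K, 1 ≤ v (κ : K)) (h : w ^ 6 = κ * β ^ (6 * k)) :
    HB K β (Real.log c) := by
  intro v
  have hc0 : (0 : ℝ) < c := by exact_mod_cast hc
  rw [Real.exp_log hc0]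
  have h1 : v (w : K) ^ 6 = v (κ : K) * v (β : K) ^ (6 * k) := by
    have e2 : ((κ * β ^ (6 * k) : 𝓞 K) : K) = (κ : K) * (β : K) ^ (6 * k) := by simp
    rw [← map_pow]
    have e1 : ((w : K)) ^ 6 = ((w ^ 6 : 𝓞 K) : K) := by simp
    rw [e1, h, e2, map_mul, map_pow]
  have hβ0 : 0 ≤ v (β : K) := apply_nonneg _ _
  have h2 : (v (β : K) ^ k) ^ 6 ≤ v (w : K) ^ 6 := by
    rw [h1, ← pow_mul, mul_comm k 6]
    have : 0 ≤ v (β : K) ^ (6 * k) := by positivity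
    nlinarith [hκ v]
  have h3 : v (β : K) ^ k ≤ v (w : K) :=
    (pow_le_pow_iff_left₀ (by positivity) (apply_nonneg _ _) (by norm_num)).mp h2
  exact (pow_le_pow_iff_left₀ hβ0 hc0.le (by omega)).mp (h3.trans (hw v))

end

theorem b3_pow {a b : ℤ} {c k : ℕ} (hk : 1 ≤ k) (hab : IsCoprime a b) (ha : 0 < a) (hb : 0 < b)
    (h : a * b = (c : ℤ) ^ k) : ∃ c1 : ℕ, c1 ≤ c ∧ a = (c1 : ℤ) ^ k := by
  obtain ⟨d, hd⟩ := exists_associated_pow_of_mul_eq_pow' hab h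
  have h1 : (d.natAbs : ℤ) ^ k = a := by
    rw [Int.associated_iff_natAbs] at hd
    have h2 : ((d ^ k).natAbs : ℤ) = (a.natAbs : ℤ) := by exact_mod_cast hd
    rw [Int.natAbs_pow] at h2
    push_cast at h2
    rw [Int.natCast_natAbs, h2, abs_of_pos ha]
  refine ⟨d.natAbs, ?_, h1.symm⟩
  have h2 : (d.natAbs : ℤ) ^ k ≤ (c : ℤ) ^ k := by
    rw [h1, ← h]
    nlinarith
  have h3 : d.natAbs ^ k ≤ c ^ k := by exact_mod_cast h2
  exact (Nat.pow_le_pow_iff_left (by omega)).mp h3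

/-- the rational factor -/
theorem b3_A {x Y : ℤ} {c k : ℕ} (hcop : IsCoprime x Y) (hc : 1 ≤ c) (hk : 1 ≤ k)
    (hE : x ^ 3 - Y ^ 3 = (c : ℤ) ^ k) :
    ∃ c1 : ℕ, c1 ≤ c ∧ (3 ∣ c → 3 * (x - Y) = (c1 : ℤ) ^ k) ∧
      (¬ 3 ∣ c → x - Y = (c1 : ℤ) ^ k) := by
  have hcpos : (0 : ℤ) < (c : ℤ) ^ k := by positivity
  have hB0 : 0 ≤ x ^ 2 + x * Y + Y ^ 2 := by nlinarith [sq_nonneg (x + Y), sq_nonneg (x - Y)]
  have hAB : (x - Y) * (x ^ 2 + x * Y + Y ^ 2) = (c : ℤ) ^ k := by rw [← hE]; ring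
  have hA : 0 < x - Y := by
    rcases lt_or_ge 0 (x - Y) with h | h
    · exact h
    · nlinarith
  have hAx : IsCoprime (x - Y) x := by
    have h1 : IsCoprime (-Y) x := (IsCoprime.neg_left hcop.symm)
    have h2 := IsCoprime.add_mul_left_left h1 1
    have e : -Y + x * 1 = x - Y := by ring
    rwa [e] at h2
  have hAY : IsCoprime (x - Y) Y := by
    have h2 := IsCoprime.add_mul_left_left hcop (-1)
    have e : x + Y * (-1) = x - Y := by ring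
    rwa [e] at h2
  have hAxY : IsCoprime (x - Y) (x * Y) := IsCoprime.mul_right hAx hAY
  by_cases h3 : 3 ∣ c
  · have h3A : (3 : ℤ) ∣ x - Y := by
      have h4 : (3 : ℤ) ∣ (x - Y) ^ 3 := by
        have h5 : (3 : ℤ) ∣ (c : ℤ) ^ k :=
          dvd_pow (by exact_mod_cast h3) (by omega)
        have e : (x - Y) ^ 3 = (c : ℤ) ^ k - 3 * (x * Y * (x - Y)) := by rw [← hE]; ring
        rw [e]
        exact dvd_sub h5 (dvd_mul_right _ _)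
      exact Int.prime_three.dvd_of_dvd_pow h4
    obtain ⟨a, ha⟩ := h3A
    have hprod : (9 * a) * (3 * a ^ 2 + x * Y) = (c : ℤ) ^ k := by
      have e : (9 * a) * (3 * a ^ 2 + x * Y) = (3 * a) ^ 3 + 3 * (3 * a) * (x * Y) := by ring
      rw [e, ← ha, ← hE]; ring
    have ha0 : 0 < 9 * a := by omega
    have hb0 : 0 < 3 * a ^ 2 + x * Y := by
      rcases lt_or_ge 0 (3 * a ^ 2 + x * Y) with h | h
      · exact h
      · nlinarith
    rw [ha] at hAxY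
    have c3 : IsCoprime 3 (x * Y) := IsCoprime.of_mul_left_left hAxY
    have ca : IsCoprime a (x * Y) := IsCoprime.of_mul_left_right hAxY
    have c3' : IsCoprime 3 (3 * a ^ 2 + x * Y) := by
      have := IsCoprime.add_mul_left_right c3 (a ^ 2)
      rwa [add_comm] at this
    have ca' : IsCoprime a (3 * a ^ 2 + x * Y) := by
      have := IsCoprime.add_mul_left_right ca (3 * a)
      have e : x * Y + a * (3 * a) = 3 * a ^ 2 + x * Y := by ring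
      rwa [e] at this
    have hcop9 : IsCoprime (9 * a) (3 * a ^ 2 + x * Y) := by
      have e : (9 : ℤ) * a = 3 * (3 * a) := by ring
      rw [e]
      exact IsCoprime.mul_left c3' (IsCoprime.mul_left c3' ca')
    obtain ⟨c1, hc1, hc1'⟩ := b3_pow hk hcop9 ha0 hb0 hprod
    refine ⟨c1, hc1, fun _ => ?_, fun h => absurd h3 h⟩
    rw [← hc1', ha]; ring
  · have h3A : IsCoprime (x - Y) 3 := by
      have h4 : ¬ (3 : ℤ) ∣ x - Y := by
        intro h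
        apply h3
        have h5 : (3 : ℤ) ∣ (c : ℤ) ^ k := by
          rw [← hAB]; exact Dvd.dvd.mul_right h _
        have h6 := Int.prime_three.dvd_of_dvd_pow h5
        exact_mod_cast h6
      exact ((Int.prime_three.coprime_iff_not_dvd).mpr h4).symm
    have hcopB : IsCoprime (x - Y) (x ^ 2 + x * Y + Y ^ 2) := by
      have := IsCoprime.add_mul_left_right (IsCoprime.mul_right h3A hAxY) (x - Y)
      have e : 3 * (x * Y) + (x - Y) * (x - Y) = x ^ 2 + x * Y + Y ^ 2 := by ring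
      rwa [e] at this
    have hb0 : 0 < x ^ 2 + x * Y + Y ^ 2 := by
      rcases lt_or_ge 0 (x ^ 2 + x * Y + Y ^ 2) with h | h
      · exact h
      · nlinarith
    obtain ⟨c1, hc1, hc1'⟩ := b3_pow hk hcopB hA hb0 hAB
    exact ⟨c1, hc1, fun h => absurd h h3, fun _ => hc1'⟩

/-- `|x| + |Y| ≤ c ^ k` -/
theorem b3_size {x Y : ℤ} {c k : ℕ} (hc : 2 ≤ c) (hk : 2 ≤ k)
    (hE : x ^ 3 - Y ^ 3 = (c : ℤ) ^ k) : |(x : ℝ)| + |(Y : ℝ)| ≤ (c : ℝ) ^ k := by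
  have hcpos : (0 : ℤ) < (c : ℤ) ^ k := by positivity
  have hB0 : 0 ≤ x ^ 2 + x * Y + Y ^ 2 := by nlinarith [sq_nonneg (x + Y), sq_nonneg (x - Y)]
  have hAB : (x - Y) * (x ^ 2 + x * Y + Y ^ 2) = (c : ℤ) ^ k := by rw [← hE]; ring
  have hA : 1 ≤ x - Y := by
    rcases lt_or_ge 0 (x - Y) with h | h
    · omega
    · nlinarith
  have hBle : x ^ 2 + x * Y + Y ^ 2 ≤ (c : ℤ) ^ k := by nlinarith
  have hBle' : (x : ℝ) ^ 2 + x * Y + (Y : ℝ) ^ 2 ≤ (c : ℝ) ^ k := by exact_mod_cast hBle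
  have h4 : (4 : ℝ) ≤ (c : ℝ) ^ k := by
    have h5 : (4 : ℕ) ≤ c ^ k := by
      calc 4 = 2 ^ 2 := by norm_num
        _ ≤ c ^ 2 := Nat.pow_le_pow_left hc 2
        _ ≤ c ^ k := Nat.pow_le_pow_right (by omega) hk
    exact_mod_cast h5
  have h6 : (|(x : ℝ)| + |(Y : ℝ)|) ^ 2 ≤ ((c : ℝ) ^ k) ^ 2 := by
    have h7 : (|(x : ℝ)| + |(Y : ℝ)|) ^ 2 ≤ 4 * ((x : ℝ) ^ 2 + x * Y + (Y : ℝ) ^ 2) := by
      rcases abs_cases (x : ℝ) with ⟨hx, _⟩ | ⟨hx, _⟩ <;>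
        rcases abs_cases (Y : ℝ) with ⟨hy, _⟩ | ⟨hy, _⟩ <;> rw [hx, hy] <;>
        nlinarith [sq_nonneg ((x : ℝ) + Y), sq_nonneg ((x : ℝ) - Y)]
    nlinarith
  exact (pow_le_pow_iff_left₀ (by positivity) (by positivity) (by norm_num)).mp h6

section
variable {K : Type} [Field K] [NumberField K]

theorem b3_beta (hidp : Stmt_Idp) (hpid : IsPrincipalIdealRing (𝓞 K))
    (hunit : ∀ u : (𝓞 K)ˣ, u ^ 6 = 1) {ζ : 𝓞 K} (hζ : IsPrimitiveRoot ζ 3)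
    (hz : ζ ^ 2 = -ζ - 1)
    {x Y : ℤ} {c k j : ℕ} (hcop : IsCoprime x Y) (hc : 1 ≤ c) (hk : 1 ≤ k)
    (hE : x ^ 3 - Y ^ 3 = (c : ℤ) ^ k) (hj : ¬ 3 ∣ j) :
    ∃ β : 𝓞 K, (3 ∣ c → ((x : 𝓞 K) - ζ ^ j * (Y : 𝓞 K)) ^ 6 = -27 * β ^ (6 * k)) ∧
      (¬ 3 ∣ c → ((x : 𝓞 K) - ζ ^ j * (Y : 𝓞 K)) ^ 6 = 1 * β ^ (6 * k)) := by
  obtain ⟨𝔇, 𝔞, hspan, -, -, -, h3, h3'⟩ :=
    hidp K 3 ζ x Y c k j Nat.prime_three le_rfl hζ hcop hc hk (Or.inl hE) hj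
  obtain ⟨β, hβ⟩ := (hpid.principal 𝔞).principal
  have hβ' : 𝔞 = Ideal.span {β} := hβ
  have key : ∀ w δ : 𝓞 K, Ideal.span {w} = Ideal.span {δ} * 𝔞 ^ k →
      w ^ 6 = δ ^ 6 * β ^ (6 * k) := by
    intro w δ h
    rw [hβ', Ideal.span_singleton_pow, Ideal.span_singleton_mul_span_singleton,
      Ideal.span_singleton_eq_span_singleton] at h
    obtain ⟨u, hu⟩ := h
    have h1 : (w * (u : 𝓞 K)) ^ 6 = (δ * β ^ k) ^ 6 := by rw [hu]
    have h2 : (u : 𝓞 K) ^ 6 = 1 := by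
      rw [← Units.val_pow_eq_pow_val, hunit u, Units.val_one]
    rw [mul_pow, h2, mul_one, mul_pow, ← pow_mul, mul_comm k 6] at h1
    exact h1
  refine ⟨β, fun h => ?_, fun h => ?_⟩
  · rw [h3 h] at hspan
    rw [key _ _ hspan, (b3_delta hz).1]
  · rw [h3' h] at hspan
    have h5 : Ideal.span {(x : 𝓞 K) - ζ ^ j * (Y : 𝓞 K)} = Ideal.span {(1 : 𝓞 K)} * 𝔞 ^ k := by
      rw [hspan, Ideal.span_singleton_one]
    rw [key _ _ h5]
    ring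

end

/-- the field -/
theorem b3_field : ∃ (K : Type) (_ : Field K) (_ : NumberField K) (ζ : 𝓞 K),
    IsPrimitiveRoot ζ 3 ∧ ζ ^ 2 = -ζ - 1 ∧ IsPrincipalIdealRing (𝓞 K) ∧
      ∀ u : (𝓞 K)ˣ, u ^ 6 = 1 := by
  have hne : NeZero ((3 : ℕ) : ℚ) := ⟨by norm_num⟩
  have hcyc : IsCyclotomicExtension {3} ℚ (CyclotomicField 3 ℚ) :=
    CyclotomicField.isCyclotomicExtension 3 ℚ
  have hζ := IsCyclotomicExtension.zeta_spec 3 ℚ (CyclotomicField 3 ℚ)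
  refine ⟨CyclotomicField 3 ℚ, inferInstance, inferInstance, hζ.toInteger,
    hζ.toInteger_isPrimitiveRoot, ?_, IsCyclotomicExtension.Rat.three_pid _, ?_⟩
  · exact IsCyclotomicExtension.Rat.Three.eta_sq hζ
  · intro u
    have h1 := IsCyclotomicExtension.Rat.Three.Units.mem hζ u
    have h3 : (IsPrimitiveRoot.isUnit (hζ.toInteger_isPrimitiveRoot) (by decide)).unit ^ 3 =
        (1 : (𝓞 (CyclotomicField 3 ℚ))ˣ) := by
      ext1
      rw [Units.val_pow_eq_pow_val, IsUnit.unit_spec]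
      exact hζ.toInteger_isPrimitiveRoot.pow_eq_one
    generalize (IsPrimitiveRoot.isUnit (hζ.toInteger_isPrimitiveRoot) (by decide)).unit = η at *
    have h6 : η ^ 6 = 1 := by
      have : η ^ 6 = (η ^ 3) ^ 2 := by rw [← pow_mul]
      rw [this, h3, one_pow]
    have hneg : ∀ w : (𝓞 (CyclotomicField 3 ℚ))ˣ, (-w) ^ 6 = w ^ 6 := by
      intro w
      exact Even.neg_pow (by decide) w
    have h12 : (η ^ 2) ^ 6 = 1 := by
      rw [← pow_mul, mul_comm 2 6, pow_mul, h6, one_pow]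
    simp only [List.mem_cons, List.not_mem_nil, or_false] at h1
    rcases h1 with rfl | rfl | rfl | rfl | rfl | rfl
    · exact one_pow 6
    · rw [hneg, one_pow]
    · exact h6
    · rw [hneg, h6]
    · exact h12
    · rw [hneg, h12]

/-- the degenerate solutions -/
theorem b3_nondeg {x Y : ℤ} {c k r : ℕ} (hr : r.Prime) (hr3 : r ≠ 3) (hcop : IsCoprime x Y)
    (hx : 1 ≤ x) (hc : 2 ≤ c) (hk : 2 ≤ k) (hrc : r ∣ c)
    (hE : x ^ 3 - Y ^ 3 = (c : ℤ) ^ k) :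
    x + Y ≠ 0 ∧ x - Y ≠ 0 ∧ 2 * x + Y ≠ 0 ∧ x + 2 * Y ≠ 0 := by
  have h4 : (4 : ℤ) ≤ (c : ℤ) ^ k := by
    have h5 : (4 : ℕ) ≤ c ^ k := by
      calc 4 = 2 ^ 2 := by norm_num
        _ ≤ c ^ 2 := Nat.pow_le_pow_left hc 2
        _ ≤ c ^ k := Nat.pow_le_pow_right (by omega) hk
    exact_mod_cast h5
  have h9 : (c : ℤ) ^ k ≠ 9 := by
    intro h
    have h5 : c ^ k = 3 ^ 2 := by
      have h7 : c ^ k = 9 := by exact_mod_cast h
      rw [h7]; norm_num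
    have h6 : r ∣ 3 ^ 2 := by
      rw [← h5]; exact dvd_pow hrc (by omega)
    have h7 : r ∣ 3 := hr.dvd_of_dvd_pow h6
    exact hr3 ((Nat.prime_dvd_prime_iff_eq hr Nat.prime_three).mp h7)
  refine ⟨?_, ?_, ?_, ?_⟩
  · intro h
    have e : Y = x * (-1) := by linarith
    have h1 : IsUnit x := hcop.isUnit_of_dvd' dvd_rfl ⟨-1, e⟩
    rcases Int.isUnit_iff.mp h1 with h2 | h2
    · have : (c : ℤ) ^ k = 2 := by rw [← hE, e, h2]; norm_num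
      omega
    · omega
  · intro h
    have e : Y = x := by linarith
    have : (c : ℤ) ^ k = 0 := by rw [← hE, e]; ring
    omega
  · intro h
    have e : Y = x * (-2) := by linarith
    have h1 : IsUnit x := hcop.isUnit_of_dvd' dvd_rfl ⟨-2, e⟩
    rcases Int.isUnit_iff.mp h1 with h2 | h2
    · have : (c : ℤ) ^ k = 9 := by rw [← hE, e, h2]; norm_num
      exact h9 this
    · omega
  · intro h
    have e : x = Y * (-2) := by linarith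
    have h1 : IsUnit Y := hcop.isUnit_of_dvd' ⟨-2, e⟩ dvd_rfl
    rcases Int.isUnit_iff.mp h1 with h2 | h2
    · omega
    · have : (c : ℤ) ^ k = 9 := by rw [← hE, e, h2]; norm_num
      exact h9 this

/-- **R3B** -/
theorem r3b : Stmt_Cyd → Stmt_Idp → Stmt_Kup → Stmt_Rg → Stmt_R3b := by
  intro _ hidp _ hrg r e hr hr3 he
  obtain ⟨K, _, _, ζ, hζ, hz, hpid, hunit⟩ := b3_field
  obtain ⟨P, hP, hP0, hrP⟩ := b3_exists_prime (K := K) hr.two_le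
  obtain ⟨C1, hC1, hrg⟩ := hrg K P 20 hP hP0 (by norm_num)
  refine ⟨20 * C1, by linarith, ?_⟩
  intro x y c k hx hy hxy hk hc hrc hE
  obtain ⟨Y, hY⟩ : ∃ Y : ℤ, Y = -(e * y) := ⟨_, rfl⟩
  have hee : e ^ 3 = e := by rcases he with rfl | rfl <;> norm_num
  have hEY : (x : ℤ) ^ 3 - Y ^ 3 = (c : ℤ) ^ k := by
    rw [← hE, hY]
    linear_combination ((y : ℤ) ^ 3) * hee
  have hcop : IsCoprime (x : ℤ) Y := by
    have h7 := Nat.isCoprime_iff_coprime.mpr hxy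
    rcases he with rfl | rfl
    · rw [hY, one_mul]; exact h7.neg_right
    · rw [hY]; simpa using h7
  have hx1 : (1 : ℤ) ≤ x := by exact_mod_cast hx
  have hx0 : (x : ℤ) ≠ 0 := by omega
  have hY0 : Y ≠ 0 := by
    rw [hY]
    rcases he with rfl | rfl <;> omega
  obtain ⟨nd1, nd2, nd3, nd4⟩ := b3_nondeg hr hr3 hcop hx1 hc hk hrc hEY
  have hEK : ((x : ℤ) : 𝓞 K) ^ 3 - (Y : 𝓞 K) ^ 3 = ((c : ℕ) : 𝓞 K) ^ k := by
    exact_mod_cast congrArg (Int.cast : ℤ → 𝓞 K) hEY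
  have h1P : (1 : 𝓞 K) ∉ P := fun h => hP.ne_top ((Ideal.eq_top_iff_one P).mpr h)
  have h3P : (3 : 𝓞 K) ∉ P := by
    intro h
    have h1 : Nat.Coprime r 3 := (Nat.coprime_primes hr Nat.prime_three).mpr hr3
    obtain ⟨a, b, hab⟩ := Nat.isCoprime_iff_coprime.mpr h1
    apply h1P
    have h8 : ((a : ℤ) : 𝓞 K) * ((r : ℕ) : 𝓞 K) + ((b : ℤ) : 𝓞 K) * 3 ∈ P :=
      P.add_mem (P.mul_mem_left _ hrP) (P.mul_mem_left _ h)
    have h9 : ((a : ℤ) : 𝓞 K) * ((r : ℕ) : 𝓞 K) + ((b : ℤ) : 𝓞 K) * 3 = 1 := by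
      exact_mod_cast congrArg (Int.cast : ℤ → 𝓞 K) hab
    rwa [h9] at h8
  have hcP : ((c : ℕ) : 𝓞 K) ∈ P := by
    obtain ⟨d, hd⟩ := hrc
    rw [hd]; push_cast
    exact P.mul_mem_right _ hrP
  have hYP : (Y : 𝓞 K) ∉ P := by
    intro h
    have h5 : ((x : ℤ) : 𝓞 K) ^ 3 ∈ P := by
      have h6 : ((c : ℕ) : 𝓞 K) ^ k ∈ P := Ideal.pow_mem_of_mem P hcP k (by omega)
      have h7 : (Y : 𝓞 K) ^ 3 ∈ P := Ideal.pow_mem_of_mem P h 3 (by norm_num)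
      have h8 := P.add_mem h6 h7
      rwa [← hEK, sub_add_cancel] at h8
    have h6 : ((x : ℤ) : 𝓞 K) ∈ P := hP.mem_of_pow_mem _ h5
    obtain ⟨a, b, hab⟩ := hcop
    apply h1P
    have h8 : ((a : ℤ) : 𝓞 K) * ((x : ℤ) : 𝓞 K) + ((b : ℤ) : 𝓞 K) * (Y : 𝓞 K) ∈ P :=
      P.add_mem (P.mul_mem_left _ h6) (P.mul_mem_left _ h)
    have h9 : ((a : ℤ) : 𝓞 K) * ((x : ℤ) : 𝓞 K) + ((b : ℤ) : 𝓞 K) * (Y : 𝓞 K) = 1 := by
      exact_mod_cast congrArg (Int.cast : ℤ → 𝓞 K) hab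
    rwa [h9] at h8
  have : Fact r.Prime := ⟨hr⟩
  have hcM : ((x : ℤ) : 𝓞 K) ^ 3 - (Y : 𝓞 K) ^ 3 ∈ P ^ (k * padicValNat r c) := by
    rw [hEK, mul_comm, pow_mul]
    refine Ideal.pow_mem_pow ?_ k
    obtain ⟨d, hd⟩ : r ^ padicValNat r c ∣ c := pow_padicValNat_dvd
    have h5 : ((c : ℕ) : 𝓞 K) = ((r : ℕ) : 𝓞 K) ^ padicValNat r c * ((d : ℕ) : 𝓞 K) := by
      exact_mod_cast congrArg (Nat.cast : ℕ → 𝓞 K) hd
    rw [h5]
    exact Ideal.mul_mem_right _ _ (Ideal.pow_mem_pow hrP _)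
  -- logarithms
  have hl2 : (1 : ℝ) / 2 ≤ Real.log 2 := by
    have := Real.log_two_gt_d9
    linarith
  have hlc : Real.log 2 ≤ Real.log c :=
    Real.log_le_log (by norm_num) (by exact_mod_cast hc)
  have hlc0 : 0 < Real.log c := by linarith
  have hlk : 0 ≤ Real.log k := Real.log_natCast_nonneg k
  have hsq : 1 ≤ (1 + Real.log k) ^ 2 := by nlinarith
  have hlog6 : Real.log ((6 * k : ℕ) : ℝ) ≤ 2 + Real.log k := by
    have hk0 : (0 : ℝ) < k := by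
      have : 0 < k := by omega
      exact_mod_cast this
    push_cast
    rw [Real.log_mul (by norm_num) hk0.ne']
    have h6 : Real.log 6 ≤ 2 := by
      rw [Real.log_le_iff_le_exp (by norm_num)]
      have h1 := Real.exp_one_gt_d9
      have h2 : Real.exp 2 = Real.exp 1 * Real.exp 1 := by
        rw [← Real.exp_add]; norm_num
      rw [h2]
      nlinarith
    linarith
  have hlog60 : 0 ≤ Real.log ((6 * k : ℕ) : ℝ) := Real.log_natCast_nonneg _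
  -- the final estimate
  have fin : ∀ κ₁ κ₂ α₁ α₂ : 𝓞 K, κ₁ ∉ P → κ₂ ∉ P → α₁ ∉ P → α₂ ∉ P → HB K κ₁ 20 →
      HB K κ₂ 20 → HB K α₁ (Real.log c) → HB K α₂ (Real.log c) →
      ((∀ j : ℕ, 1 ≤ j → κ₁ ^ j ≠ κ₂ ^ j) ∨
        ∃ j : ℕ, 1 ≤ j ∧ (j : ℝ) ≤ 20 ∧ κ₁ ^ j = κ₂ ^ j ∧ α₁ ^ (j * (6 * k)) ≠ α₂ ^ (j * (6 * k))) →
      κ₁ * α₁ ^ (6 * k) - κ₂ * α₂ ^ (6 * k) ∈ P ^ (k * padicValNat r c) →
      (k : ℝ) * (padicValNat r c : ℝ) ≤ 20 * C1 * Real.log c * (1 + Real.log k) ^ 2 := by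
    intro κ₁ κ₂ α₁ α₂ g1 g2 g3 g4 g5 g6 g7 g8 g9 g10
    have hAle : Real.log c ≤ 2 * Real.log c := by linarith
    have h := hrg κ₁ κ₂ α₁ α₂ (6 * k) (k * padicValNat r c) (2 * Real.log c) g1 g2 g3 g4
      (by omega) (by linarith) g5 g6 (b3_HB_mono g7 hAle) (b3_HB_mono g8 hAle) g9 g10
    rcases h with h | h
    · have h1 : (1 + Real.log ((6 * k : ℕ) : ℝ)) ^ 2 ≤ (3 * (1 + Real.log k)) ^ 2 :=
        pow_le_pow_left₀ (by linarith) (by linarith) 2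
      have h2 : C1 * (2 * Real.log c) * (1 + Real.log ((6 * k : ℕ) : ℝ)) ^ 2 ≤
          C1 * (2 * Real.log c) * (3 * (1 + Real.log k)) ^ 2 :=
        mul_le_mul_of_nonneg_left h1 (by positivity)
      have h3 := h.trans h2
      rw [Nat.cast_mul] at h3
      refine h3.trans ?_
      have h4 : 0 ≤ 2 * C1 * Real.log c * (1 + Real.log k) ^ 2 := by positivity
      nlinarith
    · have hv : (padicValNat r c : ℝ) ≤ 2 * Real.log c := by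
        have h5 : (r : ℝ) ^ padicValNat r c ≤ c := by
          exact_mod_cast Nat.le_of_dvd (by omega) pow_padicValNat_dvd
        have h6 : (padicValNat r c : ℝ) * Real.log r ≤ Real.log c := by
          rw [← Real.log_pow]
          exact Real.log_le_log (by have := hr.pos; positivity) h5
        have h7 : Real.log 2 ≤ Real.log r :=
          Real.log_le_log (by norm_num) (by exact_mod_cast hr.two_le)
        have h8 : (0 : ℝ) ≤ (padicValNat r c : ℝ) := Nat.cast_nonneg _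
        nlinarith
      have hk6 : (k : ℝ) ≤ C1 := by
        rw [Nat.cast_mul] at h
        have : (0 : ℝ) ≤ k := Nat.cast_nonneg _
        push_cast at h
        linarith
      have h6 : (k : ℝ) * (padicValNat r c : ℝ) ≤ C1 * (2 * Real.log c) :=
        mul_le_mul hk6 hv (Nat.cast_nonneg _) (by linarith)
      refine h6.trans ?_
      have h7 : C1 * (2 * Real.log c) * 1 ≤ C1 * (2 * Real.log c) * (1 + Real.log k) ^ 2 :=
        mul_le_mul_of_nonneg_left hsq (by positivity)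
      have h8 : 0 ≤ 18 * C1 * Real.log c * (1 + Real.log k) ^ 2 := by positivity
      nlinarith
  -- the numbers `t, κ₀`
  have hsize := b3_size hc hk hEY
  have hnat : ∀ (v : InfinitePlace K) (n : ℕ), v (((n : ℕ) : 𝓞 K) : K) = n := by
    intro v n
    rw [← Int.cast_natCast, b3_place_int v (n : ℤ), Int.cast_natCast]
    exact abs_of_nonneg (Nat.cast_nonneg n)
  have hexp : (19683 : ℝ) ≤ Real.exp 20 := by
    have h1 : (2 : ℝ) ≤ Real.exp 1 := by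
      have := Real.add_one_le_exp (1 : ℝ)
      linarith
    have h2 : Real.exp 20 = Real.exp 1 ^ 20 := by
      rw [← Real.exp_nat_mul]; norm_num
    rw [h2]
    calc (19683 : ℝ) ≤ 2 ^ 20 := by norm_num
      _ ≤ Real.exp 1 ^ 20 := pow_le_pow_left₀ (by norm_num) h1 20
  have hHB1 : HB K (1 : 𝓞 K) 20 := by
    intro v
    have h1 := hnat v 1
    simp only [Nat.cast_one] at h1
    rw [h1]
    linarith
  have h27 : (27 : 𝓞 K) ∉ P := by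
    intro h
    have : (27 : 𝓞 K) = 3 ^ 3 := by norm_num
    rw [this] at h
    exact h3P (hP.mem_of_pow_mem _ h)
  obtain ⟨t, κ₀, κ, ht0, htP, hκ, hκP, hκ0v, hκHB, hcase, hβ, ⟨c1, hc1c, hc1⟩⟩ :
      ∃ t κ₀ κ : 𝓞 K, t ≠ 0 ∧ t ∉ P ∧ t * κ₀ = κ ∧ κ ∉ P ∧
        (∀ v : InfinitePlace K, 1 ≤ v (κ₀ : K)) ∧ HB K κ 20 ∧
        ((∀ j : ℕ, 1 ≤ j → (1 : 𝓞 K) ^ j ≠ κ ^ j) ∨ κ = 1) ∧
        (∀ j : ℕ, ¬ 3 ∣ j → ∃ β : 𝓞 K,
          (((x : ℤ) : 𝓞 K) - ζ ^ j * (Y : 𝓞 K)) ^ 6 = κ₀ * β ^ (6 * k)) ∧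
        ∃ c1 : ℕ, c1 ≤ c ∧ t * (((x : ℤ) : 𝓞 K) - (Y : 𝓞 K)) ^ 6 = ((c1 : ℕ) : 𝓞 K) ^ (6 * k) := by
    obtain ⟨c1, hc1c, hA3, hA0⟩ := b3_A hcop (by omega : 1 ≤ c) (by omega : 1 ≤ k) hEY
    by_cases h3 : 3 ∣ c
    · refine ⟨729, -27, -19683, by norm_num, ?_, by norm_num, ?_, ?_, ?_, Or.inl ?_, ?_, c1,
        hc1c, ?_⟩
      · intro h
        have : (729 : 𝓞 K) = 3 ^ 6 := by norm_num
        rw [this] at h
        exact h3P (hP.mem_of_pow_mem _ h)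
      · intro h
        have h5 := P.neg_mem h
        have : -(-19683 : 𝓞 K) = 3 ^ 9 := by norm_num
        rw [this] at h5
        exact h3P (hP.mem_of_pow_mem _ h5)
      · intro v
        have h1 := b3_place_int v (-27)
        have e : (((-27 : ℤ) : 𝓞 K)) = -27 := by norm_num
        rw [e] at h1
        rw [h1]
        norm_num
      · intro v
        have h1 := b3_place_int v (-19683)
        have e : (((-19683 : ℤ) : 𝓞 K)) = -19683 := by norm_num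
        rw [e] at h1
        rw [h1]
        have : |(((-19683 : ℤ)) : ℝ)| = 19683 := by norm_num
        rw [this]
        exact hexp
      · intro j hj h
        rw [one_pow] at h
        have h5 : (1 : ℤ) = (-19683) ^ j := by exact_mod_cast h
        have h6 : (-19683 : ℤ) ∣ 1 := by
          rw [h5]; exact dvd_pow_self _ (by omega)
        norm_num at h6
      · intro j hj
        obtain ⟨β, hβ, -⟩ := b3_beta hidp hpid hunit hζ hz hcop (by omega : 1 ≤ c)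
          (by omega : 1 ≤ k) hEY hj
        exact ⟨β, hβ h3⟩
      · have h5 := hA3 h3
        have h6 : (3 : 𝓞 K) * (((x : ℤ) : 𝓞 K) - (Y : 𝓞 K)) = ((c1 : ℕ) : 𝓞 K) ^ k := by
          exact_mod_cast congrArg (Int.cast : ℤ → 𝓞 K) h5
        rw [mul_comm 6 k, pow_mul, ← h6]
        ring
    · refine ⟨1, 1, 1, one_ne_zero, h1P, by norm_num, h1P, ?_, hHB1, Or.inr rfl, ?_, c1,
        hc1c, ?_⟩
      · intro v
        have h1 := hnat v 1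
        simp only [Nat.cast_one] at h1
        rw [h1]
      · intro j hj
        obtain ⟨β, -, hβ⟩ := b3_beta hidp hpid hunit hζ hz hcop (by omega : 1 ≤ c)
          (by omega : 1 ≤ k) hEY hj
        exact ⟨β, hβ h3⟩
      · have h5 := hA0 h3
        have h6 : (((x : ℤ) : 𝓞 K) - (Y : 𝓞 K)) = ((c1 : ℕ) : 𝓞 K) ^ k := by
          exact_mod_cast congrArg (Int.cast : ℤ → 𝓞 K) h5
        rw [mul_comm 6 k, pow_mul, ← h6, one_mul]
  -- the two kinds of factors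
  have hz1 : ∀ j : ℕ, ¬ 3 ∣ j → ((x : ℤ) : 𝓞 K) - ζ ^ j * (Y : 𝓞 K) ∉ P → ∃ β : 𝓞 K,
      t * (((x : ℤ) : 𝓞 K) - ζ ^ j * (Y : 𝓞 K)) ^ 6 = κ * β ^ (6 * k) ∧ β ∉ P ∧
        HB K β (Real.log c) := by
    intro j hj hjP
    obtain ⟨β, hβ1⟩ := hβ j hj
    refine ⟨β, by rw [hβ1, ← hκ]; ring, ?_, ?_⟩
    · intro h
      apply hjP
      have h5 : β ^ (6 * k) ∈ P := Ideal.pow_mem_of_mem P h _ (by omega)
      have h6 : (((x : ℤ) : 𝓞 K) - ζ ^ j * (Y : 𝓞 K)) ^ 6 ∈ P := by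
        rw [hβ1]; exact P.mul_mem_left _ h5
      exact hP.mem_of_pow_mem _ h6
    · refine b3_HB_beta (by omega) (by omega : 1 ≤ k) (fun v => ?_) hκ0v hβ1
      exact (b3_place_le hz v j _ _).trans hsize
  have hA1 : ((x : ℤ) : 𝓞 K) - (Y : 𝓞 K) ∉ P → ((c1 : ℕ) : 𝓞 K) ∉ P := by
    intro hAP h
    have h5 : ((c1 : ℕ) : 𝓞 K) ^ (6 * k) ∈ P := Ideal.pow_mem_of_mem P h _ (by omega)
    rw [← hc1] at h5
    rcases hP.mem_or_mem h5 with h6 | h6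
    · exact htP h6
    · exact hAP (hP.mem_of_pow_mem _ h6)
  have hcHB : HB K ((c1 : ℕ) : 𝓞 K) (Real.log c) := by
    intro v
    rw [hnat v c1, Real.exp_log (by have : 0 < c := by omega
                                    exact_mod_cast this)]
    exact_mod_cast hc1c
  -- the case of the rational factor among the two
  have hAz : ∀ j : ℕ, ¬ 3 ∣ j → ((x : ℤ) : 𝓞 K) - (Y : 𝓞 K) ∉ P →
      ((x : ℤ) : 𝓞 K) - ζ ^ j * (Y : 𝓞 K) ∉ P →
      (((x : ℤ) : 𝓞 K) - (Y : 𝓞 K)) ^ 6 ≠ (((x : ℤ) : 𝓞 K) - ζ ^ j * (Y : 𝓞 K)) ^ 6 →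
      (((x : ℤ) : 𝓞 K) - (Y : 𝓞 K)) ^ 6 - (((x : ℤ) : 𝓞 K) - ζ ^ j * (Y : 𝓞 K)) ^ 6 ∈
        P ^ (k * padicValNat r c) →
      (k : ℝ) * (padicValNat r c : ℝ) ≤ 20 * C1 * Real.log c * (1 + Real.log k) ^ 2 := by
    intro j hj hAP hjP hne hmem
    obtain ⟨β, hβ1, hβP, hβHB⟩ := hz1 j hj hjP
    refine fin 1 κ _ β h1P hκP (hA1 hAP) hβP hHB1 hκHB hcHB hβHB ?_ ?_
    · rcases hcase with h | h
      · exact Or.inl h
      · refine Or.inr ⟨1, le_rfl, by norm_num, by rw [h], ?_⟩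
        rw [one_mul]
        intro h5
        apply hne
        rw [h, one_mul, ← h5, ← hc1] at hβ1
        exact (mul_left_cancel₀ ht0 hβ1).symm
    · have e1 : 1 * ((c1 : ℕ) : 𝓞 K) ^ (6 * k) - κ * β ^ (6 * k) =
          t * ((((x : ℤ) : 𝓞 K) - (Y : 𝓞 K)) ^ 6 -
            (((x : ℤ) : 𝓞 K) - ζ ^ j * (Y : 𝓞 K)) ^ 6) := by
        rw [← hc1, ← hβ1]; ring
      rw [e1]
      exact Ideal.mul_mem_left _ _ hmem
  rcases b3_exists_factor hz hP h3P hYP hcM with ⟨a1, a2, a3⟩ | ⟨a1, a2, a3⟩ | ⟨a1, a2, a3⟩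
  · obtain ⟨β1, b1, b2, b3⟩ := hz1 1 (by norm_num) (by rw [pow_one]; exact a1)
    obtain ⟨β2, b1', b2', b3'⟩ := hz1 2 (by norm_num) a2
    rw [pow_one] at b1
    refine fin κ κ β1 β2 hκP hκP b2 b2' hκHB hκHB b3 b3' (Or.inr ⟨1, le_rfl, by norm_num,
      rfl, ?_⟩) ?_
    · rw [one_mul]
      intro h5
      rw [h5, ← b1'] at b1
      exact b3_ne2 hz hx0 hY0 nd1 nd2 nd3 nd4 (mul_left_cancel₀ ht0 b1)
    · rw [← b1, ← b1', ← mul_sub]
      exact Ideal.mul_mem_left _ _ a3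
  · have hz' : (ζ ^ 2) ^ 2 = -ζ ^ 2 - 1 := by
      linear_combination (ζ ^ 2 - ζ + 1) * hz
    exact hAz 2 (by norm_num) a1 a2 (b3_ne1 hz' hx0 hY0) a3
  · have h5 := b3_ne1 hz hx0 hY0
    refine hAz 1 (by norm_num) a1 (by rw [pow_one]; exact a2) (by rw [pow_one]; exact h5)
      (by rw [pow_one]; exact a3)

end Pool.Agent.Work.MP_2738db_nt_Y.helper31
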