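import Pool.Agent.Work.MP_2738db_nt_Y.Interface2

/-!
Theorem Y, block SQF: factors of a difference of two coprime squares that is a power.
-/

set_option autoImplicit false

namespace Pool.Agent.Work.MP_2738db_nt_Y.helper31

open Pool.Agent.Work.MP_2738db_nt_Y

theorem pow_of_coprime_mul {a b c k : ℕ} (hab : Nat.Coprime a b) (h : a * b = c ^ k) :
    ∃ d, a = d ^ k :=
  exists_eq_pow_of_mul_eq_pow (by
    have : gcd a b = Nat.gcd a b := rfl
    rw [this, hab]
    exact isUnit_one) h

/-- an odd number coprime to `e`, times `4 e`, is a `t`-th power -/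
theorem odd_split {o e w t : ℕ} (ht : 2 ≤ t) (ho : Odd o) (hoe : Nat.Coprime o e)
    (h : o * (4 * e) = w ^ t) : ∃ U v : ℕ, o = U ^ t ∧ e * 2 = 2 ^ (t - 1) * v ^ t := by
  have hc : Nat.Coprime o (4 * e) := by
    refine Nat.Coprime.mul_right ?_ hoe
    have h2 : Nat.Coprime o 2 := (Nat.coprime_two_right).2 ho
    have : (4 : ℕ) = 2 * 2 := rfl
    rw [this]
    exact h2.mul_right h2
  obtain ⟨U, hU⟩ := pow_of_coprime_mul hc h
  obtain ⟨V, hV⟩ := pow_of_coprime_mul hc.symm (by rw [mul_comm]; exact h)
  have hVe : 2 ∣ V := by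
    have : 2 ∣ V ^ t := by
      rw [← hV]
      exact Dvd.dvd.mul_right (by norm_num) e
    exact Nat.prime_two.dvd_of_dvd_pow this
  obtain ⟨v, rfl⟩ := hVe
  refine ⟨U, v, hU, ?_⟩
  obtain ⟨s, rfl⟩ : ∃ s, t = s + 2 := ⟨t - 2, by omega⟩
  have h1 : s + 2 - 1 = s + 1 := by omega
  rw [h1]
  have h3 : 4 * e = 2 ^ (s + 2) * v ^ (s + 2) := by rw [hV, mul_pow]
  have h4 : 2 ^ (s + 2) = 2 * 2 ^ (s + 1) := by ring
  rw [h4] at h3
  nlinarith [h3]

theorem sqf : Stmt_Sqf := by
  intro A B w t hAB hB hBA ht h
  obtain ⟨d, rfl⟩ := Nat.exists_eq_add_of_le hBA.le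
  have hd : 1 ≤ d := by omega
  have hw : w ^ t = d * (2 * B + d) := by
    have : (B + d) ^ 2 = B ^ 2 + d * (2 * B + d) := by ring
    omega
  have hdB : Nat.Coprime d B := by
    have : Nat.Coprime (B + d) B := hAB
    simpa using this
  rcases Nat.even_or_odd d with hde | hdo
  · -- both odd
    have hBo : Odd B := by
      rcases Nat.even_or_odd B with hB' | hB'
      · exfalso
        have h2d : 2 ∣ d := hde.two_dvd
        have h2B : 2 ∣ B := hB'.two_dvd
        have := Nat.dvd_gcd h2d h2B
        rw [hdB] at this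
        norm_num at this
      · exact hB'
    obtain ⟨e, he⟩ := hde.two_dvd
    subst he
    right
    have hcop : Nat.Coprime e (B + e) := by
      have h1 : Nat.Coprime e B := Nat.Coprime.coprime_dvd_left (Dvd.intro_left 2 rfl) hdB
      simpa using h1
    have hw' : w ^ t = e * (4 * (B + e)) := by rw [hw]; ring
    rcases Nat.even_or_odd e with hee | heo
    · -- B + e odd
      have ho : Odd (B + e) := hBo.add_even hee
      obtain ⟨U, v, hU, hv⟩ := odd_split (o := B + e) (e := e) (w := w) ht ho hcop.symm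
        (by rw [hw']; ring)
      refine ⟨U, v, ?_, ?_, Or.inr ⟨by omega, by omega⟩⟩
      · rcases Nat.eq_zero_or_pos U with h0 | h0
        · subst h0
          rw [zero_pow (by omega)] at hU
          omega
        · exact h0
      · rcases Nat.eq_zero_or_pos v with h0 | h0
        · subst h0
          rw [zero_pow (by omega)] at hv
          omega
        · exact h0
    · obtain ⟨U, v, hU, hv⟩ := odd_split (o := e) (e := B + e) (w := w) ht heo hcop
        (by rw [hw'])
      refine ⟨U, v, ?_, ?_, Or.inl ⟨by omega, by omega⟩⟩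
      · rcases Nat.eq_zero_or_pos U with h0 | h0
        · subst h0
          rw [zero_pow (by omega)] at hU
          omega
        · exact h0
      · rcases Nat.eq_zero_or_pos v with h0 | h0
        · subst h0
          rw [zero_pow (by omega)] at hv
          omega
        · exact h0
  · left
    have hcop : Nat.Coprime d (2 * B + d) := by
      have h2 : Nat.Coprime d 2 := (Nat.coprime_two_right).2 hdo
      have h3 : Nat.Coprime d (2 * B) := h2.mul_right hdB
      simpa using h3
    obtain ⟨U, hU⟩ := pow_of_coprime_mul hcop hw.symm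
    obtain ⟨v, hv⟩ := pow_of_coprime_mul hcop.symm (by rw [mul_comm]; exact hw.symm)
    refine ⟨U, v, ?_, ?_, by omega, by omega⟩
    · rcases Nat.eq_zero_or_pos U with h0 | h0
      · subst h0
        rw [zero_pow (by omega)] at hU
        omega
      · exact h0
    · have hlt : U ^ t < v ^ t := by omega
      exact lt_of_pow_lt_pow_left₀ t (Nat.zero_le v) hlt

end Pool.Agent.Work.MP_2738db_nt_Y.helper31
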